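import Mathlib
import Pool.Agent.H94.IC.Targets2

/-!
# Insulating cracks: module NLS, cracks and discs are compact null sets
-/

open MeasureTheory Set Filter Topology Metric
open scoped ENNReal NNReal ContDiff RealInnerProductSpace

namespace Pool.Agent.H86.IC

open Pool.Agent.H94.IC

/-- coordinate planes are null sets -/
theorem plane_null : volume {y : E | y 2 = 0} = 0 := by
  have h := Measure.addHaar_submodule (volume : Measure E)
    (LinearMap.ker (EuclideanSpace.proj (2 : Fin 3) : E →L[ℝ] ℝ).toLinearMap) (by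
      intro h
      have h1 : ev 2 ∈ LinearMap.ker (EuclideanSpace.proj (2 : Fin 3) : E →L[ℝ] ℝ).toLinearMap := by
        rw [h]; trivial
      rw [LinearMap.mem_ker] at h1
      simp at h1)
  refine le_antisymm (le_trans (measure_mono ?_) h.le) bot_le
  intro y hy
  simpa using hy

theorem flatDisc_compact : IsCompact flatDisc := by
  apply Metric.isCompact_of_isClosed_isBounded
  · have h1 : IsClosed {y : E | y 2 = 0} := isClosed_eq (by fun_prop) (by fun_prop)
    have h2 : IsClosed {y : E | y 0 ^ 2 + y 1 ^ 2 ≤ 1} := isClosed_le (by fun_prop) (by fun_prop)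
    exact h1.inter h2
  · rw [isBounded_iff_forall_norm_le]
    refine ⟨1, ?_⟩
    rintro y ⟨h2, h1⟩
    rw [EuclideanSpace.norm_eq, Real.sqrt_le_one, Fin.sum_univ_three]
    simp only [Real.norm_eq_abs, sq_abs]
    rw [h2]; simpa using h1

theorem nls : T_NLS := by
  intro Ω S
  constructor
  · intro hS
    apply measure_null_of_locally_null
    intro p hp
    have hch : ∃ half, FlatChart S p half := by
      rcases hS.chart p hp with h | h
      · exact ⟨_, h.2⟩
      · exact ⟨_, h.2⟩
    obtain ⟨half, Ψ, hpΨ, -, -, hs, hx⟩ := hch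
    refine ⟨S ∩ Ψ.source, inter_mem_nhdsWithin _ (Ψ.open_source.mem_nhds hpΨ), ?_⟩
    have h0 : volume (Ψ.target ∩ {y : E | y 2 = 0}) = 0 :=
      measure_mono_null inter_subset_right plane_null
    have h1 : volume (Ψ.symm '' (Ψ.target ∩ {y : E | y 2 = 0})) = 0 := by
      apply addHaar_image_eq_zero_of_differentiableOn_of_addHaar_eq_zero _ _ h0
      exact (hs.differentiableOn (by simp)).mono inter_subset_left
    refine measure_mono_null ?_ h1
    rintro x ⟨hxS, hxs⟩
    exact ⟨Ψ x, ⟨Ψ.map_source hxs, ((hx x hxs).1 hxS).1⟩, Ψ.left_inv hxs⟩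
  · intro Φ δ hT
    have hfds : flatDisc ⊆ Φ.source := (Metric.self_subset_cthickening _).trans hT.src
    refine ⟨?_, ?_, ?_⟩
    · rw [← hT.img]
      apply addHaar_image_eq_zero_of_differentiableOn_of_addHaar_eq_zero
      · exact (hT.sm.differentiableOn (by simp)).mono hfds
      · exact measure_mono_null (fun y hy => hy.1) plane_null
    · rw [← hT.img]
      exact flatDisc_compact.image_of_continuousOn (Φ.continuousOn.mono hfds)
    · rw [← hT.img]
      rintro x ⟨y, hy, rfl⟩
      exact hT.tgt (Φ.map_source (hfds hy))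

end Pool.Agent.H86.IC
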