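import Mathlib
import Pool.Agent.H94.IC.Defs

/-!
# Insulating cracks: from smooth to Lipschitz test functions (mollification)
-/

open MeasureTheory Set Filter Topology Metric
open scoped ENNReal NNReal ContDiff RealInnerProductSpace Convolution

namespace Pool.Agent.H86.IC

open Pool.Agent.H94.IC

theorem gr_inner' (f : E → ℝ) (x v : E) : ⟪v, gr f x⟫ = fderiv ℝ f x v := by
  rw [real_inner_comm]
  exact inner_gradient_left

theorem measurable_gr' (f : E → ℝ) : Measurable (gr f) := by
  have h1 : Measurable (fderiv ℝ f) := measurable_fderiv ℝ f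
  exact (InnerProductSpace.toDual ℝ E).symm.continuous.measurable.comp h1

theorem norm_gr' (f : E → ℝ) (x : E) : ‖gr f x‖ = ‖fderiv ℝ f x‖ := by
  exact (InnerProductSpace.toDual ℝ E).symm.norm_map _

/-- the bumps -/
noncomputable def bmp (δ : ℝ) (hδ : 0 < δ) (n : ℕ) : ContDiffBump (0 : E) where
  rIn := δ / (n + 1) / 2
  rOut := δ / (n + 1)
  rIn_pos := by positivity
  rIn_lt_rOut := by
    have : 0 < δ / ((n : ℝ) + 1) := by positivity
    linarith

/-- the kernel -/
noncomputable def kr (δ : ℝ) (hδ : 0 < δ) (n : ℕ) : E → ℝ := (bmp δ hδ n).normed volume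

variable {δ : ℝ} {hδ : 0 < δ} {n : ℕ}

theorem kr_nonneg (t : E) : 0 ≤ kr δ hδ n t := (bmp δ hδ n).nonneg_normed t

theorem kr_int : ∫ t, kr δ hδ n t = 1 := (bmp δ hδ n).integral_normed

theorem kr_integrable : Integrable (kr δ hδ n) := (bmp δ hδ n).integrable_normed

theorem kr_cont : Continuous (kr δ hδ n) := (bmp δ hδ n).continuous_normed

theorem kr_supp {t : E} (h : kr δ hδ n t ≠ 0) : ‖t‖ ≤ δ := by
  have h1 : t ∈ Function.support ((bmp δ hδ n).normed volume) := h
  rw [(bmp δ hδ n).support_normed_eq, mem_ball_zero_iff] at h1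
  have h2 : (bmp δ hδ n).rOut = δ / (n + 1) := rfl
  rw [h2] at h1
  have h3 : δ / ((n : ℝ) + 1) ≤ δ := by
    apply div_le_self hδ.le
    have : (0 : ℝ) ≤ n := Nat.cast_nonneg n
    linarith
  linarith

/-- the mollified function -/
noncomputable def ml (δ : ℝ) (hδ : 0 < δ) (n : ℕ) (φ : E → ℝ) (x : E) : ℝ :=
  ∫ t, kr δ hδ n t * φ (x - t)

theorem ml_eq (φ : E → ℝ) : ml δ hδ n φ = (kr δ hδ n) ⋆[ContinuousLinearMap.mul ℝ ℝ, volume] φ := rfl

theorem ml_smooth {φ : E → ℝ} (hφ : Continuous φ) : ContDiff ℝ ∞ (ml δ hδ n φ) := by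
  rw [ml_eq]
  exact ((bmp δ hδ n).hasCompactSupport_normed).contDiff_convolution_left _
    (bmp δ hδ n).contDiff_normed hφ.locallyIntegrable

theorem ml_zero {φ : E → ℝ} {x : E} (hx : x ∉ cthickening δ (tsupport φ)) : ml δ hδ n φ x = 0 := by
  unfold ml
  apply integral_eq_zero_of_ae
  refine Eventually.of_forall fun t => ?_
  show kr δ hδ n t * φ (x - t) = 0
  by_contra hne
  have h1 : kr δ hδ n t ≠ 0 := left_ne_zero_of_mul hne
  have h2 : φ (x - t) ≠ 0 := right_ne_zero_of_mul hne
  apply hx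
  apply mem_cthickening_of_dist_le x (x - t) δ _ (subset_tsupport _ h2)
  rw [dist_eq_norm, sub_sub_cancel]
  exact kr_supp h1

theorem ml_tsupport {φ : E → ℝ} : tsupport (ml δ hδ n φ) ⊆ cthickening δ (tsupport φ) := by
  apply closure_minimal _ isClosed_cthickening
  intro x hx
  by_contra h
  exact hx (ml_zero h)

theorem ml_compact {φ : E → ℝ} (hc : HasCompactSupport φ) : HasCompactSupport (ml δ hδ n φ) :=
  (hc.isCompact.cthickening).of_isClosed_subset (isClosed_tsupport _) ml_tsupport

theorem kr_mul_integrable {φ : E → ℝ} (hφ : Continuous φ) (hc : HasCompactSupport φ) (x : E) :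
    Integrable fun t => kr δ hδ n t * φ (x - t) := by
  obtain ⟨C, hC⟩ := hc.exists_bound_of_continuous hφ
  refine (kr_integrable (δ := δ) (hδ := hδ) (n := n)).mul_bdd (c := C) ?_ ?_
  · exact (hφ.comp (continuous_const.sub continuous_id)).aestronglyMeasurable
  · exact Eventually.of_forall fun t => hC _

theorem ml_fderiv {φ : E → ℝ} {K : ℝ≥0} (hL : LipschitzWith K φ) (hc : HasCompactSupport φ) (x : E) :
    HasFDerivAt (ml δ hδ n φ) (∫ t, kr δ hδ n t • fderiv ℝ φ (x - t)) x := by
  have hmeas : Measurable fun t => fderiv ℝ φ (x - t) :=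
    (measurable_fderiv ℝ φ).comp (measurable_const.sub measurable_id)
  refine (hasFDerivAt_integral_of_dominated_loc_of_lip (μ := volume) (s := univ)
    (F := fun (x : E) (t : E) => kr δ hδ n t * φ (x - t))
    (F' := fun t => kr δ hδ n t • fderiv ℝ φ (x - t)) (bound := fun t => kr δ hδ n t * K)
    univ_mem ?_ ?_ ?_ ?_ ?_ ?_).2
  · exact Eventually.of_forall fun y => (kr_mul_integrable hL.continuous hc y).aestronglyMeasurable
  · exact kr_mul_integrable hL.continuous hc x
  · exact (kr_cont.measurable.smul hmeas).aestronglyMeasurable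
  · refine Eventually.of_forall fun t => ?_
    rw [lipschitzOnWith_univ]
    apply LipschitzWith.of_dist_le_mul
    intro y z
    have hK : (0 : ℝ) ≤ K := K.2
    rw [Real.dist_eq, ← mul_sub, abs_mul, Real.coe_nnabs, abs_of_nonneg (kr_nonneg t),
      abs_of_nonneg (mul_nonneg (kr_nonneg (hδ := hδ) (n := n) t) hK), mul_assoc]
    apply mul_le_mul_of_nonneg_left _ (kr_nonneg t)
    have := hL.dist_le_mul (y - t) (z - t)
    rwa [Real.dist_eq, dist_sub_right] at this
  · exact kr_integrable.mul_const _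
  · have h1 : ∀ᵐ y : E, DifferentiableAt ℝ φ y := hL.ae_differentiableAt
    have h2 : ∀ᵐ t : E, DifferentiableAt ℝ φ (x - t) :=
      (Measure.measurePreserving_sub_left volume x).quasiMeasurePreserving.ae h1
    filter_upwards [h2] with t ht
    have h3 : HasFDerivAt (fun y : E => φ (y - t)) (fderiv ℝ φ (x - t)) x := by
      have h4 := ht.hasFDerivAt.comp x ((hasFDerivAt_id (𝕜 := ℝ) x).sub_const t)
      rw [ContinuousLinearMap.comp_id] at h4
      exact h4
    exact h3.const_mul (kr δ hδ n t)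

theorem ml_norm {φ : E → ℝ} {K : ℝ≥0} (hL : LipschitzWith K φ) (hc : HasCompactSupport φ) (x : E) :
    ‖fderiv ℝ (ml δ hδ n φ) x‖ ≤ K := by
  rw [(ml_fderiv hL hc x).fderiv]
  calc ‖∫ t, kr δ hδ n t • fderiv ℝ φ (x - t)‖ ≤ ∫ t, kr δ hδ n t * K := by
        apply norm_integral_le_of_norm_le (kr_integrable.mul_const _)
        refine Eventually.of_forall fun t => ?_
        rw [norm_smul, Real.norm_eq_abs, abs_of_nonneg (kr_nonneg t)]
        exact mul_le_mul_of_nonneg_left (norm_fderiv_le_of_lipschitz ℝ hL) (kr_nonneg t)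
    _ = K := by rw [integral_mul_const, kr_int, one_mul]

theorem ml_tendsto {φ : E → ℝ} {K : ℝ≥0} (hL : LipschitzWith K φ) (hc : HasCompactSupport φ)
    (δ : ℝ) (hδ : 0 < δ) :
    ∀ᵐ x, Tendsto (fun n => fderiv ℝ (ml δ hδ n φ) x) atTop (𝓝 (fderiv ℝ φ x)) := by
  have hloc : LocallyIntegrable (fderiv ℝ φ) (volume : Measure E) := by
    have h1 : LocallyIntegrable (fun _ : E => (K : ℝ)) (volume : Measure E) := continuous_const.locallyIntegrable
    refine h1.mono (measurable_fderiv ℝ φ).aestronglyMeasurable (Eventually.of_forall fun x => ?_)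
    have hK : (0 : ℝ) ≤ K := K.2
    rw [Real.norm_eq_abs, abs_of_nonneg hK]
    exact norm_fderiv_le_of_lipschitz ℝ hL
  have hr : Tendsto (fun n => (bmp δ hδ n).rOut) atTop (𝓝 0) := by
    have : Tendsto (fun n : ℕ => δ / ((n : ℝ) + 1)) atTop (𝓝 0) := by
      have h1 := (tendsto_one_div_add_atTop_nhds_zero_nat (𝕜 := ℝ)).const_mul δ
      rw [mul_zero] at h1
      refine h1.congr fun k => ?_
      rw [mul_one_div]
    exact this
  have h := ContDiffBump.ae_convolution_tendsto_right_of_locallyIntegrable (φ := bmp δ hδ) (l := atTop)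
    (K := 2) (μ := (volume : Measure E)) hr (Eventually.of_forall fun n => by
      show δ / ((n : ℝ) + 1) ≤ 2 * (δ / ((n : ℝ) + 1) / 2)
      linarith) hloc
  filter_upwards [h] with x hx
  refine hx.congr fun n => ?_
  rw [(ml_fderiv hL hc x).fderiv]
  rfl

/-- from smooth to Lipschitz test functions -/
theorem smo {D B : Set E} {F : E → E} (hB : IsOpen B) (hF : ContinuousOn F B)
    (hsm : ∀ φ : E → ℝ, ContDiff ℝ ∞ φ → HasCompactSupport φ → tsupport φ ⊆ B →
      ∫ y in D, ⟪F y, gr φ y⟫ = 0)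
    (φ : E → ℝ) (hL : ∃ K : ℝ≥0, LipschitzWith K φ) (hc : HasCompactSupport φ) (hs : tsupport φ ⊆ B) :
    ∫ y in D, ⟪F y, gr φ y⟫ = 0 := by
  obtain ⟨K, hL⟩ := hL
  obtain ⟨δ, hδ, hδB⟩ := hc.isCompact.exists_cthickening_subset_open hB hs
  have hcc : IsCompact (cthickening δ (tsupport φ)) := hc.isCompact.cthickening
  obtain ⟨M, hM⟩ := hcc.exists_bound_of_continuousOn (hF.mono hδB)
  have h0 : ∀ n, ∫ y in D, ⟪F y, gr (ml δ hδ n φ) y⟫ = 0 := fun n =>
    hsm _ (ml_smooth hL.continuous) (ml_compact hc) (ml_tsupport.trans hδB)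
  have hoff : ∀ n y, y ∉ cthickening δ (tsupport φ) → gr (ml δ hδ n φ) y = 0 := by
    intro n y hy
    have h1 : ml δ hδ n φ =ᶠ[𝓝 y] fun _ => 0 := by
      filter_upwards [isClosed_cthickening.isOpen_compl.mem_nhds hy] with z hz using ml_zero hz
    rw [← norm_eq_zero, norm_gr', h1.fderiv_eq, fderiv_fun_const]
    simp
  have hlim : Tendsto (fun n => ∫ y in D, ⟪F y, gr (ml δ hδ n φ) y⟫) atTop
      (𝓝 (∫ y in D, ⟪F y, gr φ y⟫)) := by
    apply tendsto_integral_of_dominated_convergence
      (fun y => (cthickening δ (tsupport φ)).indicator (fun _ => M * K) y)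
    · intro n
      have h1 : (fun y => ⟪F y, gr (ml δ hδ n φ) y⟫) =
          B.indicator (fun y => ⟪F y, gr (ml δ hδ n φ) y⟫) := by
        funext y
        by_cases hy : y ∈ B
        · rw [indicator_of_mem hy]
        · rw [indicator_of_notMem hy, hoff n y (fun h => hy (hδB h)), inner_zero_right]
      rw [h1, aestronglyMeasurable_indicator_iff hB.measurableSet]
      have h2 : AEStronglyMeasurable F ((volume.restrict D).restrict B) :=
        hF.aestronglyMeasurable hB.measurableSet
      exact h2.inner (measurable_gr' _).aestronglyMeasurable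
    · have h1 : IntegrableOn (fun _ : E => M * (K : ℝ)) (cthickening δ (tsupport φ)) (volume.restrict D) :=
        integrableOn_const ((Measure.restrict_apply_le _ _).trans_lt hcc.measure_lt_top).ne
      exact h1.integrable_indicator hcc.isClosed.measurableSet
    · intro n
      refine Eventually.of_forall fun y => ?_
      by_cases hy : y ∈ cthickening δ (tsupport φ)
      · rw [indicator_of_mem hy]
        refine (norm_inner_le_norm _ _).trans ?_
        have h1 := hM y hy
        have h2 : ‖gr (ml δ hδ n φ) y‖ ≤ K := by rw [norm_gr']; exact ml_norm hL hc y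
        exact mul_le_mul h1 h2 (norm_nonneg _) ((norm_nonneg _).trans h1)
      · rw [indicator_of_notMem hy, hoff n y hy, inner_zero_right, norm_zero]
    · apply ae_restrict_of_ae
      filter_upwards [ml_tendsto hL hc δ hδ] with y hy
      have h1 : ∀ ψ : E → ℝ, ⟪F y, gr ψ y⟫ = fderiv ℝ ψ y (F y) := fun ψ => gr_inner' ψ y (F y)
      simp only [h1]
      exact ((ContinuousLinearMap.apply ℝ ℝ (F y)).continuous.tendsto _).comp hy
  have h3 : Tendsto (fun n => ∫ y in D, ⟪F y, gr (ml δ hδ n φ) y⟫) atTop (𝓝 0) := by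
    simp only [h0]; exact tendsto_const_nhds
  exact tendsto_nhds_unique hlim h3

end Pool.Agent.H86.IC
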