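import Mathlib
import Pool.Agent.H94.IC.Targets2
import Pool.Agent.H86.IC.Smo
import Pool.Agent.H86.IC.NLS

/-!
# Insulating cracks: module FFE, the enclosed part is flux free
-/

open MeasureTheory Set Filter Topology Metric
open scoped ENNReal NNReal ContDiff RealInnerProductSpace

namespace Pool.Agent.H86.IC

open Pool.Agent.H94.IC

theorem gr_coord (f : E → ℝ) (x : E) (k : Fin 3) : (gr f x) k = pd k f x := by
  have h1 := EuclideanSpace.inner_single_right (𝕜 := ℝ) k (1 : ℝ) (gr f x)
  have h2 : ⟪gr f x, ev k⟫ = fderiv ℝ f x (ev k) := inner_gradient_left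
  unfold pd
  rw [← h2]
  simpa using h1.symm

theorem inner_gr_eq (f g : E → ℝ) (x : E) : ⟪gr f x, gr g x⟫ = ∑ k : Fin 3, pd k f x * pd k g x := by
  rw [PiLp.inner_apply]
  apply Finset.sum_congr rfl
  intro k _
  rw [gr_coord, gr_coord]
  simp [mul_comm]

theorem pd_smooth {O : Set E} (hO : IsOpen O) {f : E → ℝ} (hf : ContDiffOn ℝ ∞ f O) (k : Fin 3) :
    ContDiffOn ℝ ∞ (pd k f) O := by
  have h1 : ContDiffOn ℝ ∞ (fderiv ℝ f) O := hf.fderiv_of_isOpen hO (by simp)
  exact h1.clm_apply contDiffOn_const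

/-- products of a function continuous on `O` and a continuous function supported in `O` -/
theorem mul_integrable {O : Set E} (hO : IsOpen O) {f g : E → ℝ} (hf : ContinuousOn f O)
    (hg : Continuous g) (hc : HasCompactSupport g) (hs : tsupport g ⊆ O) :
    Integrable fun x => f x * g x := by
  have h1 : tsupport (fun x => f x * g x) ⊆ tsupport g := tsupport_mul_subset_right
  have h2 : Continuous fun x => f x * g x :=
    (hf.mul hg.continuousOn).continuous_of_tsupport_subset hO (h1.trans hs)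
  exact h2.integrable_of_hasCompactSupport (hc.mul_left)

theorem pd_cont {φ : E → ℝ} (hφ : ContDiff ℝ ∞ φ) (k : Fin 3) : Continuous (pd k φ) := by
  have := pd_smooth isOpen_univ hφ.contDiffOn k
  rw [contDiffOn_univ] at this
  exact this.continuous

theorem pd_tsupport {φ : E → ℝ} (k : Fin 3) : tsupport (pd k φ) ⊆ tsupport φ :=
  tsupport_fderiv_apply_subset ℝ _

theorem pd_compact {φ : E → ℝ} (hc : HasCompactSupport φ) (k : Fin 3) : HasCompactSupport (pd k φ) :=
  hc.isCompact.of_isClosed_subset (isClosed_tsupport _) (pd_tsupport k)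

theorem flux_integrable {O : Set E} {f φ : E → ℝ} (hO : IsOpen O) (hf : ContDiffOn ℝ ∞ f O)
    (hφ : ContDiff ℝ ∞ φ) (hc : HasCompactSupport φ) (hs : tsupport φ ⊆ O) :
    Integrable fun x => ⟪gr f x, gr φ x⟫ := by
  simp only [inner_gr_eq]
  apply integrable_finsetSum
  intro k _
  exact mul_integrable hO (pd_smooth hO hf k).continuousOn (pd_cont hφ k) (pd_compact hc k)
    ((pd_tsupport k).trans hs)

/-- smooth test functions: no flux of a harmonic function -/
theorem flux_zero {O : Set E} {f φ : E → ℝ} (hO : IsOpen O) (hf : Harm O f)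
    (hφ : ContDiff ℝ ∞ φ) (hc : HasCompactSupport φ) (hs : tsupport φ ⊆ O) :
    ∫ x, ⟪gr f x, gr φ x⟫ = 0 := by
  have hfk := fun k => pd_smooth hO hf.1 k
  have hfkk := fun k => pd_smooth hO (hfk k) k
  simp only [inner_gr_eq]
  have hi1 : ∀ k : Fin 3, Integrable fun x => pd k f x * pd k φ x := fun k =>
    mul_integrable hO (hfk k).continuousOn (pd_cont hφ k) (pd_compact hc k) ((pd_tsupport k).trans hs)
  have hi2 : ∀ k : Fin 3, Integrable fun x => pd k (pd k f) x * φ x := fun k =>
    mul_integrable hO (hfkk k).continuousOn hφ.continuous hc hs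
  rw [integral_finsetSum _ fun k _ => hi1 k]
  have h1 : ∀ k : Fin 3, ∫ x, pd k f x * pd k φ x = -∫ x, pd k (pd k f) x * φ x := by
    intro k
    apply integral_mul_fderiv_eq_neg_fderiv_mul_of_integrable (hi2 k) (hi1 k)
    · exact mul_integrable hO (hfk k).continuousOn hφ.continuous hc hs
    · intro x hx
      exact ((hfk k).contDiffAt (hO.mem_nhds (hs hx))).differentiableAt (by simp)
    · intro x _
      exact (hφ.differentiable (by simp)).differentiableAt
  rw [Finset.sum_congr rfl fun k _ => h1 k, Finset.sum_neg_distrib, ← integral_finsetSum _ fun k _ => hi2 k]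
  rw [neg_eq_zero]
  apply integral_eq_zero_of_ae
  refine Eventually.of_forall fun x => ?_
  show ∑ k : Fin 3, pd k (pd k f) x * φ x = 0
  rw [← Finset.sum_mul]
  by_cases hx : x ∈ O
  · rw [hf.2 x hx, zero_mul]
  · rw [image_eq_zero_of_notMem_tsupport fun h => hx (hs h), mul_zero]

/-- connected sets off the two cracks are enclosed or not -/
theorem comp_dich {Ω S S' V : Set E} (hV : IsPreconnected V) (hVS : V ⊆ (S ∪ S')ᶜ) :
    V ⊆ Enc Ω S S' ∨ Disjoint V (Enc Ω S S') := by
  by_cases h : (V ∩ Enc Ω S S').Nonempty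
  · left
    obtain ⟨y, hyV, hyD⟩ := h
    intro z hz
    have h1 : z ∉ S ∧ z ∉ S' := by
      have := hVS hz
      rw [mem_compl_iff, mem_union] at this
      push Not at this
      exact this
    refine ⟨h1.1, h1.2, ?_⟩
    have h2 : z ∈ connectedComponentIn (S ∪ S')ᶜ y := hV.subset_connectedComponentIn hyV hVS hz
    rw [← connectedComponentIn_eq h2]
    exact hyD.2.2
  · right
    rw [disjoint_iff_inter_eq_empty]
    exact not_nonempty_iff_eq_empty.1 h

/-- the local structure of the complement of the crack -/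
def Loc (Ω S S' : Set E) (x : E) : Prop := ∃ W W1 W2 : Set E, IsOpen W ∧ x ∈ W ∧ W ⊆ Ω \ S' ∧
  IsOpen W1 ∧ IsOpen W2 ∧ Disjoint W1 W2 ∧ IsPreconnected W1 ∧ IsPreconnected W2 ∧ W \ S = W1 ∪ W2

theorem loc {Ω S S' : Set E} (hΩ : IsOpen Ω) (hS : IsCrack Ω S) (hS' : IsClosed S') {x : E}
    (hx : x ∈ Ω \ S') : Loc Ω S S' x := by
  have hO : IsOpen (Ω \ S') := hΩ.sdiff hS'
  have hSc : IsClosed S := hS.cpt.isClosed
  by_cases hxS : x ∈ S
  · have key : ∀ half : Prop, FlatChart S x half → Loc Ω S S' x := by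
      rintro half ⟨Ψ, hxs, hx0, -, -, hch⟩
      have h0t : (0 : E) ∈ Ψ.target := by rw [← hx0]; exact Ψ.map_source hxs
      have hs0 : Ψ.symm 0 = x := by rw [← hx0]; exact Ψ.left_inv hxs
      have hnh : Ψ.target ∩ Ψ.symm ⁻¹' (Ω \ S') ∈ 𝓝 (0 : E) := by
        apply inter_mem (Ψ.open_target.mem_nhds h0t)
        apply (Ψ.symm.continuousAt (by rw [Ψ.symm_source]; exact h0t)).preimage_mem_nhds
        rw [hs0]
        exact hO.mem_nhds hx
      obtain ⟨a, ha, hab⟩ := Metric.mem_nhds_iff.1 hnh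
      have hbt : ball (0 : E) a ⊆ Ψ.target := fun y hy => (hab hy).1
      set W : Set E := Ψ.symm '' ball 0 a with hW
      have hWo : IsOpen W := Ψ.isOpen_image_symm_of_subset_target isOpen_ball hbt
      have hxW : x ∈ W := ⟨0, mem_ball_self ha, hs0⟩
      have hWO : W ⊆ Ω \ S' := by
        rintro z ⟨y, hy, rfl⟩
        exact (hab hy).2
      have hmem : ∀ y ∈ ball (0 : E) a, (Ψ.symm y ∈ S ↔ (y 2 = 0 ∧ (half → 0 ≤ y 0))) := by
        intro y hy
        rw [hch _ (Ψ.map_target (hbt hy)), Ψ.right_inv (hbt hy)]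
      by_cases hhalf : half
      · -- an edge point
        refine ⟨W, W \ S, ∅, hWo, hxW, hWO, hWo.sdiff hSc, isOpen_empty, disjoint_empty _, ?_,
          isPreconnected_empty, (union_empty _).symm⟩
        set A : Set E := {y | y ∈ ball (0 : E) a ∧ ¬ (y 2 = 0 ∧ 0 ≤ y 0)} with hA
        have hWA : W \ S = Ψ.symm '' A := by
          ext z
          constructor
          · rintro ⟨⟨y, hy, rfl⟩, hz⟩
            refine ⟨y, ⟨hy, fun hcon => hz ?_⟩, rfl⟩
            exact (hmem y hy).2 ⟨hcon.1, fun _ => hcon.2⟩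
          · rintro ⟨y, ⟨hy, hy2⟩, rfl⟩
            refine ⟨⟨y, hy, rfl⟩, fun hcon => hy2 ?_⟩
            have := (hmem y hy).1 hcon
            exact ⟨this.1, this.2 hhalf⟩
        rw [hWA]
        set c : E := -(a / 2) • ev 0 with hc
        have hc0 : c 0 = -(a / 2) := by simp [hc]
        have hc2 : c 2 = 0 := by simp [hc]
        have hcb : c ∈ ball (0 : E) a := by
          rw [mem_ball_zero_iff, hc, norm_smul, PiLp.norm_single]
          simp only [norm_neg, norm_div, Real.norm_ofNat, norm_one, mul_one, Real.norm_eq_abs,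
            abs_of_pos ha]
          linarith
        have hcA : c ∈ A := by
          refine ⟨hcb, ?_⟩
          rw [hc0]
          rintro ⟨-, h⟩
          linarith
        have hstar : StarConvex ℝ c A := by
          intro y hy p q hp hq hpq
          refine ⟨(convex_ball (0 : E) a) hcb hy.1 hp hq hpq, ?_⟩
          rintro ⟨h2, h0⟩
          have e2 : (p • c + q • y) 2 = q * y 2 := by simp [hc2]
          have e0 : (p • c + q • y) 0 = p * c 0 + q * y 0 := by simp
          rw [e2] at h2
          rw [e0, hc0] at h0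
          rcases mul_eq_zero.1 h2 with h | h
          · rw [h] at h0 hpq
            have : p = 1 := by linarith
            rw [this] at h0
            linarith
          · have h3 : y 0 < 0 := by
              by_contra h4
              exact hy.2 ⟨h, not_lt.1 h4⟩
            rcases hq.eq_or_lt with h5 | h5
            · rw [← h5] at h0 hpq
              have : p = 1 := by linarith
              rw [this] at h0
              linarith
            · nlinarith [mul_neg_of_pos_of_neg h5 h3, mul_nonneg hp ha.le]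
        have hpre : IsPreconnected A := (hstar.isPathConnected hcA).isConnected.isPreconnected
        exact hpre.image _ (Ψ.symm.continuousOn.mono fun y hy => by
          rw [Ψ.symm_source]; exact hbt hy.1)
      · -- an interior point
        have hcont : ContinuousOn Ψ.symm (ball (0 : E) a) := Ψ.symm.continuousOn.mono fun y hy => by
          rw [Ψ.symm_source]; exact hbt hy
        have hp1 : IsOpen {y : E | 0 < y 2} := isOpen_lt (by fun_prop) (by fun_prop)
        have hp2 : IsOpen {y : E | y 2 < 0} := isOpen_lt (by fun_prop) (by fun_prop)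
        have hcv1 : Convex ℝ {y : E | 0 < y 2} := by
          have : {y : E | 0 < y 2} = (EuclideanSpace.proj (2 : Fin 3) : E →L[ℝ] ℝ) ⁻¹' Ioi 0 := by
            ext y; simp
          rw [this]
          exact (convex_Ioi (0 : ℝ)).linear_preimage (EuclideanSpace.proj (2 : Fin 3) : E →L[ℝ] ℝ).toLinearMap
        have hcv2 : Convex ℝ {y : E | y 2 < 0} := by
          have : {y : E | y 2 < 0} = (EuclideanSpace.proj (2 : Fin 3) : E →L[ℝ] ℝ) ⁻¹' Iio 0 := by
            ext y; simp
          rw [this]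
          exact (convex_Iio (0 : ℝ)).linear_preimage (EuclideanSpace.proj (2 : Fin 3) : E →L[ℝ] ℝ).toLinearMap
        refine ⟨W, Ψ.symm '' (ball 0 a ∩ {y | 0 < y 2}), Ψ.symm '' (ball 0 a ∩ {y | y 2 < 0}), hWo, hxW,
          hWO, ?_, ?_, ?_, ?_, ?_, ?_⟩
        · exact Ψ.isOpen_image_symm_of_subset_target (isOpen_ball.inter hp1) (inter_subset_left.trans hbt)
        · exact Ψ.isOpen_image_symm_of_subset_target (isOpen_ball.inter hp2) (inter_subset_left.trans hbt)
        · rw [disjoint_left]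
          rintro z ⟨y, ⟨hy, hy1⟩, rfl⟩ ⟨y', ⟨hy', hy2⟩, he⟩
          have : y' = y := by
            have h1 := congrArg Ψ he
            rwa [Ψ.right_inv (hbt hy'), Ψ.right_inv (hbt hy)] at h1
          rw [this] at hy2
          have h3 : y 2 < 0 := hy2
          have h4 : 0 < y 2 := hy1
          exact lt_asymm h4 h3
        · exact ((convex_ball (0 : E) a).inter hcv1).isPreconnected.image _ (hcont.mono inter_subset_left)
        · exact ((convex_ball (0 : E) a).inter hcv2).isPreconnected.image _ (hcont.mono inter_subset_left)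
        · ext z
          constructor
          · rintro ⟨⟨y, hy, rfl⟩, hz⟩
            have h1 : y 2 ≠ 0 := fun h => hz ((hmem y hy).2 ⟨h, fun h' => absurd h' hhalf⟩)
            rcases lt_or_gt_of_ne h1 with h | h
            · exact Or.inr ⟨y, ⟨hy, h⟩, rfl⟩
            · exact Or.inl ⟨y, ⟨hy, h⟩, rfl⟩
          · rintro (⟨y, ⟨hy, hy1⟩, rfl⟩ | ⟨y, ⟨hy, hy1⟩, rfl⟩)
            · exact ⟨⟨y, hy, rfl⟩, fun h => hy1.ne' ((hmem y hy).1 h).1⟩
            · exact ⟨⟨y, hy, rfl⟩, fun h => hy1.ne ((hmem y hy).1 h).1⟩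
    rcases hS.chart x hxS with h | h
    · exact key _ h.2
    · exact key _ h.2
  · have hO2 : IsOpen ((Ω \ S') \ S) := hO.sdiff hSc
    obtain ⟨a, ha, hab⟩ := Metric.isOpen_iff.1 hO2 x ⟨hx, hxS⟩
    refine ⟨ball x a, ball x a, ∅, isOpen_ball, mem_ball_self ha, fun y hy => (hab hy).1, isOpen_ball,
      isOpen_empty, disjoint_empty _, (convex_ball x a).isPreconnected, isPreconnected_empty, ?_⟩
    rw [union_empty]
    ext y
    constructor
    · exact fun hy => hy.1
    · exact fun hy => ⟨hy, (hab hy).2⟩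

theorem gr_ev {f g : E → ℝ} {x : E} (h : f =ᶠ[𝓝 x] g) : gr f x = gr g x := h.gradient_eq

theorem gr_ev0 {f : E → ℝ} {x : E} (h : f =ᶠ[𝓝 x] fun _ => 0) : gr f x = 0 := by
  rw [← norm_eq_zero, norm_gr', h.fderiv_eq, fderiv_fun_const]
  simp

theorem gr_off {φ : E → ℝ} {x : E} (h : x ∉ tsupport φ) : gr φ x = 0 :=
  gr_ev0 (notMem_tsupport_iff_eventuallyEq.1 h)

/-- one side of the crack -/
theorem side_zero {Ω S S' W V V' : Set E} {h h' φ : E → ℝ} (hS0 : volume S = 0)
    (hWN : WN Ω S h) (hWO : W ⊆ Ω \ S') (hV : IsOpen V) (hV' : IsOpen V')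
    (hd : Disjoint V V') (hWS : W \ S = V ∪ V') (heq : ∀ x ∈ V, h x = h' x)
    (hφ : ContDiff ℝ ∞ φ) (hc : HasCompactSupport φ) (hs : tsupport φ ⊆ W) :
    ∫ y in V, ⟪gr h' y, gr φ y⟫ = 0 := by
  have hVW : V ⊆ W := fun y hy => (hWS ▸ Or.inl hy : y ∈ W \ S).1
  have hVΩ : V ⊆ Ω := fun y hy => (hWO (hVW hy)).1
  set φ' : E → ℝ := V.indicator φ with hφ'
  -- local forms
  have hin : ∀ x ∈ V, φ' =ᶠ[𝓝 x] φ := by
    intro x hx
    filter_upwards [hV.mem_nhds hx] with y hy
    exact indicator_of_mem hy _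
  have hout : ∀ x, x ∉ S → x ∉ V → φ' =ᶠ[𝓝 x] fun _ => 0 := by
    intro x hxS hxV
    by_cases hxW : x ∈ W
    · have hx' : x ∈ V' := by
        have : x ∈ V ∪ V' := hWS ▸ ⟨hxW, hxS⟩
        exact this.resolve_left hxV
      filter_upwards [hV'.mem_nhds hx'] with y hy
      exact indicator_of_notMem (fun h => (disjoint_left.1 hd) h hy) _
    · have h1 : φ =ᶠ[𝓝 x] 0 := notMem_tsupport_iff_eventuallyEq.1 fun h => hxW (hs h)
      filter_upwards [h1] with y hy
      simp only [hφ', indicator]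
      split_ifs
      · exact hy
      · rfl
  have hsm : ContDiffOn ℝ ∞ φ' (Ω \ S) := by
    intro x hx
    apply ContDiffAt.contDiffWithinAt
    by_cases hxV : x ∈ V
    · exact hφ.contDiffAt.congr_of_eventuallyEq (hin x hxV)
    · exact contDiffAt_const.congr_of_eventuallyEq (hout x hx.2 hxV)
  have hφ2 : MemLp φ 2 (volume.restrict Ω) :=
    (hφ.continuous.memLp_of_hasCompactSupport hc).restrict Ω
  have hg2 : MemLp (gr φ) 2 (volume.restrict Ω) := by
    have h1 : Continuous (gr φ) := (InnerProductSpace.toDual ℝ E).symm.continuous.comp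
      (hφ.continuous_fderiv (by simp))
    have h2 : HasCompactSupport (gr φ) := by
      apply HasCompactSupport.intro hc.isCompact
      intro x hx
      exact gr_off hx
    exact (h1.memLp_of_hasCompactSupport h2).restrict Ω
  have hgae : ∀ᵐ x, gr φ' x = V.indicator (gr φ) x := by
    have h1 : ∀ᵐ x, x ∉ S := measure_eq_zero_iff_ae_notMem.1 hS0
    filter_upwards [h1] with x hxS
    by_cases hxV : x ∈ V
    · rw [indicator_of_mem hxV]; exact gr_ev (hin x hxV)
    · rw [indicator_of_notMem hxV]; exact gr_ev0 (hout x hxS hxV)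
  have hφ'2 : MemLp φ' 2 (volume.restrict Ω) := hφ2.indicator hV.measurableSet
  have hg'2 : MemLp (gr φ') 2 (volume.restrict Ω) :=
    (hg2.indicator hV.measurableSet).ae_eq ((ae_restrict_of_ae hgae).mono fun x hx => hx.symm)
  have hw := hWN.weak φ' (tsupport φ) hsm hφ'2 hg'2 hc.isCompact (fun x hx => (hWO (hs hx)).1) (by
    intro x hx
    simp only [hφ', indicator]
    split_ifs
    · exact image_eq_zero_of_notMem_tsupport hx.2
    · rfl)
  have h1 : ∫ x in Ω, ⟪gr h x, gr φ' x⟫ = ∫ x in Ω, V.indicator (fun y => ⟪gr h' y, gr φ y⟫) x := by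
    apply integral_congr_ae
    apply ae_restrict_of_ae
    filter_upwards [hgae] with x hx
    rw [hx]
    by_cases hxV : x ∈ V
    · rw [indicator_of_mem hxV, indicator_of_mem hxV]
      have h2 : h =ᶠ[𝓝 x] h' := by
        filter_upwards [hV.mem_nhds hxV] with y hy using heq y hy
      rw [gr_ev h2]
    · rw [indicator_of_notMem hxV, indicator_of_notMem hxV, inner_zero_right]
  rw [h1, integral_indicator hV.measurableSet, Measure.restrict_restrict hV.measurableSet,
    inter_eq_self_of_subset_left hVΩ] at hw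
  exact hw

theorem ffe (hENC : T_ENC) : T_FFE := by
  intro Ω S S' h h' hD hS hS'c hS'Ω hWN hH heq x hx
  obtain ⟨hEo, hEc, -⟩ := hENC Ω S S' hD hS.cpt hS.sub hS'c hS'Ω
  have hS0 : volume S = 0 := (nls Ω S).1 hS
  have hO : IsOpen (Ω \ S') := hD.op.sdiff hS'c.isClosed
  obtain ⟨W, W1, W2, hWo, hxW, hWO, hW1o, hW2o, hdis, hp1, hp2, hWS⟩ := loc hD.op hS hS'c.isClosed hx
  obtain ⟨r, hr, hrW⟩ := Metric.isOpen_iff.1 hWo x hxW
  refine ⟨r, hr, hrW.trans hWO, ?_⟩
  intro φ hL hc hs
  set D : Set E := Enc Ω S S' with hDdef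
  have hcont : ContinuousOn (gr h') (ball x r) := by
    have h1 : ContinuousOn (fun y => fderiv ℝ h' y) (Ω \ S') :=
      hH.1.continuousOn_fderiv_of_isOpen hO (by simp)
    exact ((InnerProductSpace.toDual ℝ E).symm.continuous.comp_continuousOn h1).mono (hrW.trans hWO)
  refine smo isOpen_ball hcont ?_ φ hL hc hs
  clear hs hc hL φ
  intro φ hφ hc hs
  have hsW : tsupport φ ⊆ W := hs.trans hrW
  have hint : Integrable fun y => ⟪gr h' y, gr φ y⟫ := flux_integrable hO hH.1 hφ hc (hsW.trans hWO)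
  have htot : ∫ y, ⟪gr h' y, gr φ y⟫ = 0 := flux_zero hO hH hφ hc (hsW.trans hWO)
  have hW1W : W1 ⊆ W \ S := by rw [hWS]; exact subset_union_left
  have hW2W : W2 ⊆ W \ S := by rw [hWS]; exact subset_union_right
  have hsub : ∀ V : Set E, V ⊆ W \ S → V ⊆ (S ∪ S')ᶜ := by
    intro V hV y hy
    have h1 := hV hy
    have h2 := hWO h1.1
    rw [mem_compl_iff, mem_union]
    push Not
    exact ⟨h1.2, h2.2⟩
  have heqV : ∀ V : Set E, V ⊆ W \ S → Disjoint V D → ∀ y ∈ V, h y = h' y := by
    intro V hV hVD y hy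
    have h1 := hV hy
    have h2 := hWO h1.1
    exact heq y h2.1 h1.2 h2.2 fun h3 => (disjoint_left.1 hVD) hy h3
  have hside1 : Disjoint W1 D → ∫ y in W1, ⟪gr h' y, gr φ y⟫ = 0 := fun hd =>
    side_zero hS0 hWN hWO hW1o hW2o hdis hWS (heqV W1 hW1W hd) hφ hc hsW
  have hside2 : Disjoint W2 D → ∫ y in W2, ⟪gr h' y, gr φ y⟫ = 0 := fun hd =>
    side_zero hS0 hWN hWO hW2o hW1o hdis.symm (by rw [hWS, union_comm])
      (heqV W2 hW2W hd) hφ hc hsW
  -- decomposition of integrals
  have hzero : ∀ y, y ∉ W → ⟪gr h' y, gr φ y⟫ = 0 := by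
    intro y hy
    rw [gr_off fun h1 => hy (hsW h1), inner_zero_right]
  have hdec : ∀ A : Set E, MeasurableSet A → ∫ y in A, ⟪gr h' y, gr φ y⟫ =
      (∫ y in A ∩ W1, ⟪gr h' y, gr φ y⟫) + ∫ y in A ∩ W2, ⟪gr h' y, gr φ y⟫ := by
    intro A hA
    rw [← integral_indicator hA, ← integral_indicator (hA.inter hW1o.measurableSet),
      ← integral_indicator (hA.inter hW2o.measurableSet), ← integral_add
      (hint.indicator (hA.inter hW1o.measurableSet)) (hint.indicator (hA.inter hW2o.measurableSet))]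
    apply integral_congr_ae
    have h1 : ∀ᵐ y, y ∉ S := measure_eq_zero_iff_ae_notMem.1 hS0
    filter_upwards [h1] with y hyS
    by_cases hyW : y ∈ W
    · have h2 : y ∈ W1 ∪ W2 := hWS ▸ ⟨hyW, hyS⟩
      by_cases hyA : y ∈ A
      · rcases h2 with h3 | h3
        · have h4 : y ∉ W2 := fun h5 => (disjoint_left.1 hdis) h3 h5
          rw [indicator_of_mem hyA, indicator_of_mem (show y ∈ A ∩ W1 from ⟨hyA, h3⟩),
            indicator_of_notMem (show y ∉ A ∩ W2 from fun h5 => h4 h5.2), add_zero]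
        · have h4 : y ∉ W1 := fun h5 => (disjoint_left.1 hdis) h5 h3
          rw [indicator_of_mem hyA, indicator_of_mem (show y ∈ A ∩ W2 from ⟨hyA, h3⟩),
            indicator_of_notMem (show y ∉ A ∩ W1 from fun h5 => h4 h5.2), zero_add]
      · rw [indicator_of_notMem hyA, indicator_of_notMem (show y ∉ A ∩ W1 from fun h5 => hyA h5.1),
          indicator_of_notMem (show y ∉ A ∩ W2 from fun h5 => hyA h5.1), add_zero]
    · have h3 := hzero y hyW
      simp only [indicator, h3, ite_self, add_zero]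
  have htot' := hdec univ MeasurableSet.univ
  rw [univ_inter, univ_inter, setIntegral_univ, htot] at htot'
  have hDm : MeasurableSet D := hEo.measurableSet
  rw [hdec D hDm]
  have hcase : ∀ V : Set E, V ⊆ D → ∫ y in D ∩ V, ⟪gr h' y, gr φ y⟫ = ∫ y in V, ⟪gr h' y, gr φ y⟫ :=
    fun V hV => by rw [inter_eq_self_of_subset_right hV]
  have hcase0 : ∀ V : Set E, Disjoint V D → ∫ y in D ∩ V, ⟪gr h' y, gr φ y⟫ = 0 := fun V hV => by
    rw [inter_comm, disjoint_iff_inter_eq_empty.1 hV, setIntegral_empty]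
  rcases comp_dich (Ω := Ω) hp1 (hsub W1 hW1W) with d1 | d1 <;>
    rcases comp_dich (Ω := Ω) hp2 (hsub W2 hW2W) with d2 | d2
  · rw [hcase W1 d1, hcase W2 d2]; exact htot'.symm
  · rw [hcase W1 d1, hcase0 W2 d2, add_zero]
    rw [hside2 d2, add_zero] at htot'
    exact htot'.symm
  · rw [hcase0 W1 d1, hcase W2 d2, zero_add]
    rw [hside1 d1, zero_add] at htot'
    exact htot'.symm
  · rw [hcase0 W1 d1, hcase0 W2 d2, add_zero]

end Pool.Agent.H86.IC
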