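import Mathlib
import Pool.Agent.H94.IC.Targets2

/-!
# Insulating cracks: module EDG, cutoffs of small energy near sets of zero capacity
-/

open MeasureTheory Set Filter Topology Metric
open scoped ENNReal NNReal ContDiff RealInnerProductSpace

namespace Pool.Agent.H86.IC

open Pool.Agent.H94.IC

/-- the clamp -/
noncomputable def gf (i : ℕ) (t : ℝ) : ℝ := max 0 (min 1 (4 ^ i * t - 1))

theorem gf_nonneg (i : ℕ) (t : ℝ) : 0 ≤ gf i t := le_max_left _ _

theorem gf_le_one (i : ℕ) (t : ℝ) : gf i t ≤ 1 := max_le zero_le_one (min_le_left _ _)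

theorem gf_zero {i : ℕ} {t : ℝ} (h : 4 ^ i * t ≤ 1) : gf i t = 0 := by
  unfold gf
  apply max_eq_left
  exact (min_le_right _ _).trans (by linarith)

theorem gf_one {i : ℕ} {t : ℝ} (h : 2 ≤ 4 ^ i * t) : gf i t = 1 := by
  unfold gf
  rw [min_eq_left (by linarith)]
  exact max_eq_right zero_le_one

theorem gf_lip (i : ℕ) (s t : ℝ) : |gf i s - gf i t| ≤ 4 ^ i * |s - t| := by
  have h4 : (0 : ℝ) < 4 ^ i := by positivity
  have h1 : |4 ^ i * s - 4 ^ i * t| = 4 ^ i * |s - t| := by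
    rw [← mul_sub, abs_mul, abs_of_pos h4]
  have h2 := abs_max_sub_max_le_abs (min 1 (4 ^ i * s - 1)) (min 1 (4 ^ i * t - 1)) 0
  have h3 := abs_min_sub_min_le_max (1 : ℝ) (4 ^ i * s - 1) 1 (4 ^ i * t - 1)
  have h5 : |4 ^ i * s - 1 - (4 ^ i * t - 1)| = 4 ^ i * |s - t| := by
    rw [← h1]; congr 1; ring
  rw [h5, sub_self, abs_zero, max_eq_right (by positivity)] at h3
  unfold gf
  rw [max_comm 0, max_comm 0]
  linarith

theorem norm_gr (f : E → ℝ) (x : E) : ‖gr f x‖ = ‖fderiv ℝ f x‖ := by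
  exact (InnerProductSpace.toDual ℝ E).symm.norm_map _

/-- the set where the function `i` varies -/
def Ban (Z : Set E) (i : ℕ) : Set E := {x | 1 ≤ 4 ^ i * infDist x Z ∧ 4 ^ i * infDist x Z ≤ 2}

theorem Ban_closed (Z : Set E) (i : ℕ) : IsClosed (Ban Z i) := by
  have hc : Continuous fun x : E => infDist x Z := continuous_infDist_pt Z
  exact (isClosed_le continuous_const (continuous_const.mul hc)).inter
    (isClosed_le (continuous_const.mul hc) continuous_const)

theorem Ban_disj {Z : Set E} {i j : ℕ} (hij : i < j) {x : E} (hi : x ∈ Ban Z i) (hj : x ∈ Ban Z j) :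
    False := by
  obtain ⟨k, rfl⟩ := Nat.exists_eq_add_of_lt hij
  have h1 := hi.1
  have h2 := hj.2
  have h3 : (4 : ℝ) ^ (i + k + 1) * infDist x Z = 4 ^ k * (4 * (4 ^ i * infDist x Z)) := by ring
  rw [h3] at h2
  have h4 : (1 : ℝ) ≤ 4 ^ k := one_le_pow₀ (by norm_num)
  nlinarith

/-- off `Ban` the clamp is locally constant -/
theorem gf_loc {Z : Set E} {i : ℕ} {x : E} (hx : x ∉ Ban Z i) :
    ∀ᶠ y in 𝓝 x, gf i (infDist y Z) = gf i (infDist x Z) := by
  have hc : Continuous fun x : E => infDist x Z := continuous_infDist_pt Z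
  have hx' : 4 ^ i * infDist x Z < 1 ∨ 2 < 4 ^ i * infDist x Z := by
    by_contra h
    push Not at h
    exact hx ⟨h.1, h.2⟩
  rcases hx' with h | h
  · have h1 : ∀ᶠ y in 𝓝 x, 4 ^ i * infDist y Z < 1 :=
      (continuous_const.mul hc).continuousAt.eventually_lt continuousAt_const h
    filter_upwards [h1] with y hy
    rw [gf_zero hy.le, gf_zero h.le]
  · have h1 : ∀ᶠ y in 𝓝 x, 2 < 4 ^ i * infDist y Z :=
      continuousAt_const.eventually_lt (continuous_const.mul hc).continuousAt h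
    filter_upwards [h1] with y hy
    rw [gf_one hy.le, gf_one h.le]

/-- the cutoff -/
noncomputable def kap (Z : Set E) (m n : ℕ) (x : E) : ℝ :=
  (n : ℝ)⁻¹ * ∑ i ∈ Finset.Ico m (m + n), gf i (infDist x Z)

theorem kap_lip (Z : Set E) (m n : ℕ) : LipschitzWith
    (Real.toNNReal ((n : ℝ)⁻¹ * ∑ i ∈ Finset.Ico m (m + n), 4 ^ i)) (kap Z m n) := by
  apply LipschitzWith.of_dist_le_mul
  intro x y
  rw [Real.coe_toNNReal _ (by positivity), Real.dist_eq]
  unfold kap
  rw [← mul_sub, abs_mul, abs_of_nonneg (by positivity : (0 : ℝ) ≤ (n : ℝ)⁻¹), mul_assoc]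
  apply mul_le_mul_of_nonneg_left _ (by positivity)
  rw [← Finset.sum_sub_distrib, Finset.sum_mul]
  refine (Finset.abs_sum_le_sum_abs _ _).trans (Finset.sum_le_sum fun i _ => ?_)
  refine (gf_lip _ _ _).trans (mul_le_mul_of_nonneg_left ?_ (by positivity))
  have h := (lipschitz_infDist_pt Z).dist_le_mul x y
  rw [Real.dist_eq] at h
  simpa using h

/-- the pointwise bound of the gradient -/
theorem kap_grad (Z : Set E) (m n : ℕ) (x : E) : ‖gr (kap Z m n) x‖ ^ 2 ≤
    ∑ i ∈ Finset.Ico m (m + n), (Ban Z i).indicator (fun _ => ((n : ℝ)⁻¹ * 4 ^ i) ^ 2) x := by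
  classical
  rw [norm_gr]
  by_cases hx : ∃ i ∈ Finset.Ico m (m + n), x ∈ Ban Z i
  · obtain ⟨i, hi, hxi⟩ := hx
    have h1 : ∀ j ∈ (Finset.Ico m (m + n)).erase i, x ∉ Ban Z j := by
      intro j hj hxj
      rw [Finset.mem_erase] at hj
      rcases lt_or_gt_of_ne hj.1 with h | h
      · exact Ban_disj h hxj hxi
      · exact Ban_disj h hxi hxj
    have h2 : ∀ᶠ y in 𝓝 x, ∀ j ∈ (Finset.Ico m (m + n)).erase i,
        gf j (infDist y Z) = gf j (infDist x Z) := by
      rw [Filter.eventually_all_finset]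
      intro j hj
      exact gf_loc (h1 j hj)
    have h3 : kap Z m n =ᶠ[𝓝 x] fun y => (n : ℝ)⁻¹ * (gf i (infDist y Z) +
        ∑ j ∈ (Finset.Ico m (m + n)).erase i, gf j (infDist x Z)) := by
      filter_upwards [h2] with y hy
      unfold kap
      rw [← Finset.add_sum_erase _ _ hi]
      congr 2
      exact Finset.sum_congr rfl hy
    have h4 : LipschitzWith (Real.toNNReal ((n : ℝ)⁻¹ * 4 ^ i)) (fun y : E => (n : ℝ)⁻¹ *
        (gf i (infDist y Z) + ∑ j ∈ (Finset.Ico m (m + n)).erase i, gf j (infDist x Z))) := by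
      apply LipschitzWith.of_dist_le_mul
      intro y z
      rw [Real.coe_toNNReal _ (by positivity), Real.dist_eq, ← mul_sub, abs_mul,
        abs_of_nonneg (by positivity : (0 : ℝ) ≤ (n : ℝ)⁻¹), mul_assoc, add_sub_add_right_eq_sub]
      apply mul_le_mul_of_nonneg_left _ (by positivity)
      refine (gf_lip _ _ _).trans (mul_le_mul_of_nonneg_left ?_ (by positivity))
      have h := (lipschitz_infDist_pt Z).dist_le_mul y z
      rw [Real.dist_eq] at h
      simpa using h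
    have h5 : ‖fderiv ℝ (kap Z m n) x‖ ≤ (n : ℝ)⁻¹ * 4 ^ i := by
      rw [h3.fderiv_eq]
      have := norm_fderiv_le_of_lipschitz ℝ (x₀ := x) h4
      rwa [Real.coe_toNNReal _ (by positivity)] at this
    have h6 : ‖fderiv ℝ (kap Z m n) x‖ ^ 2 ≤ (Ban Z i).indicator (fun _ => ((n : ℝ)⁻¹ * 4 ^ i) ^ 2) x := by
      rw [indicator_of_mem hxi]
      exact pow_le_pow_left₀ (norm_nonneg _) h5 2
    refine h6.trans ?_
    apply Finset.single_le_sum (f := fun i => (Ban Z i).indicator (fun _ => ((n : ℝ)⁻¹ * 4 ^ i) ^ 2) x) _ hi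
    intro j _
    exact indicator_nonneg (fun _ _ => by positivity) _
  · push Not at hx
    have h2 : ∀ᶠ y in 𝓝 x, ∀ j ∈ Finset.Ico m (m + n),
        gf j (infDist y Z) = gf j (infDist x Z) := by
      rw [Filter.eventually_all_finset]
      intro j hj
      exact gf_loc (hx j hj)
    have h3 : kap Z m n =ᶠ[𝓝 x] fun _ => kap Z m n x := by
      filter_upwards [h2] with y hy
      unfold kap
      congr 1
      exact Finset.sum_congr rfl hy
    rw [h3.fderiv_eq, fderiv_fun_const]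
    simp only [Pi.zero_apply, norm_zero, ne_eq, OfNat.ofNat_ne_zero, not_false_eq_true, zero_pow]
    exact Finset.sum_nonneg fun j _ => indicator_nonneg (fun _ _ => by positivity) _

theorem edg : T_EDG := by
  intro Z C hZc hZn hvol ε hε
  -- the parameters
  obtain ⟨m, hm⟩ : ∃ m : ℕ, 1 ≤ m ∧ 2 ≤ 4 ^ m * ε := by
    obtain ⟨m, hm⟩ := pow_unbounded_of_one_lt (2 / ε) (by norm_num : (1 : ℝ) < 4)
    refine ⟨m + 1, by omega, ?_⟩
    rw [div_lt_iff₀ hε] at hm
    rw [pow_succ]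
    nlinarith
  have hC : 0 ≤ C ∨ C < 0 := le_or_gt 0 C
  obtain ⟨n, hn0, hn⟩ : ∃ n : ℕ, 0 < n ∧ 9 * C ≤ n * ε := by
    obtain ⟨n, hn⟩ := exists_nat_gt (9 * C / ε)
    refine ⟨n + 1, by omega, ?_⟩
    rw [div_lt_iff₀ hε] at hn
    push_cast
    nlinarith
  have hn0' : (0 : ℝ) < n := by exact_mod_cast hn0
  have hcard : (∑ i ∈ Finset.Ico m (m + n), (1 : ℝ)) = n := by simp
  -- the measure of the annuli
  have hB : ∀ i ∈ Finset.Ico m (m + n), volume (Ban Z i) ≤ ENNReal.ofReal (C * (3 * ((4 : ℝ) ^ i)⁻¹) ^ 2) := by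
    intro i hi
    rw [Finset.mem_Ico] at hi
    have h4 : (4 : ℝ) ≤ 4 ^ i := by
      calc (4 : ℝ) = 4 ^ 1 := (pow_one _).symm
        _ ≤ 4 ^ i := pow_le_pow_right₀ (by norm_num) (by omega)
    have h4' : (0 : ℝ) < 4 ^ i := by positivity
    refine le_trans (measure_mono ?_) (hvol (3 * ((4 : ℝ) ^ i)⁻¹) ⟨by positivity, ?_⟩)
    · intro x hx
      rw [Metric.mem_thickening_iff_infDist_lt hZn]
      have h := hx.2
      rw [← div_eq_mul_inv, lt_div_iff₀ h4']
      linarith
    · rw [← div_eq_mul_inv, div_le_one h4']; linarith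
  have hBfin : ∀ i ∈ Finset.Ico m (m + n), volume (Ban Z i) < ⊤ := fun i hi =>
    (hB i hi).trans_lt ENNReal.ofReal_lt_top
  have hInt : ∀ i ∈ Finset.Ico m (m + n), Integrable
      (fun x => (Ban Z i).indicator (fun _ => ((n : ℝ)⁻¹ * 4 ^ i) ^ 2) x) := by
    intro i hi
    rw [integrable_indicator_iff (Ban_closed Z i).measurableSet]
    exact integrableOn_const (hBfin i hi).ne
  have hIntS : Integrable (fun x => ∑ i ∈ Finset.Ico m (m + n),
      (Ban Z i).indicator (fun _ => ((n : ℝ)⁻¹ * 4 ^ i) ^ 2) x) := integrable_finsetSum _ hInt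
  have hmeas : AEStronglyMeasurable (fun x => ‖gr (kap Z m n) x‖ ^ 2) := by
    have h1 : Measurable (fun x => ‖fderiv ℝ (kap Z m n) x‖ ^ 2) :=
      ((measurable_fderiv ℝ (kap Z m n)).norm).pow_const 2
    have h2 : (fun x => ‖gr (kap Z m n) x‖ ^ 2) = fun x => ‖fderiv ℝ (kap Z m n) x‖ ^ 2 := by
      funext x; rw [norm_gr]
    rw [h2]; exact h1.aestronglyMeasurable
  have hIntG : Integrable (fun x => ‖gr (kap Z m n) x‖ ^ 2) := by
    refine hIntS.mono' hmeas (Eventually.of_forall fun x => ?_)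
    rw [Real.norm_eq_abs, abs_of_nonneg (by positivity)]
    exact kap_grad Z m n x
  refine ⟨kap Z m n, ⟨_, kap_lip Z m n⟩, ?_, ?_, ?_, hIntG, ?_⟩
  · intro x
    unfold kap
    constructor
    · exact mul_nonneg (by positivity) (Finset.sum_nonneg fun i _ => gf_nonneg _ _)
    · have h1 : ∑ i ∈ Finset.Ico m (m + n), gf i (infDist x Z) ≤ n := by
        rw [← hcard]
        exact Finset.sum_le_sum fun i _ => gf_le_one _ _
      rw [inv_mul_le_iff₀ hn0', mul_one]; exact h1
  · refine ⟨((4 : ℝ) ^ (m + n))⁻¹, by positivity, ?_⟩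
    intro x hx
    unfold kap
    rw [Finset.sum_eq_zero, mul_zero]
    intro i hi
    rw [Finset.mem_Ico] at hi
    apply gf_zero
    have h1 : (4 : ℝ) ^ i ≤ 4 ^ (m + n) := pow_le_pow_right₀ (by norm_num) (by omega)
    have h2 : (0 : ℝ) < 4 ^ (m + n) := by positivity
    have h3 : 4 ^ (m + n) * infDist x Z < 1 := by
      rw [← one_div, lt_div_iff₀ h2] at hx
      linarith
    have h4 : 0 ≤ infDist x Z := infDist_nonneg
    nlinarith
  · intro x hx
    unfold kap
    have h1 : ∑ i ∈ Finset.Ico m (m + n), gf i (infDist x Z) = n := by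
      rw [← hcard]
      apply Finset.sum_congr rfl
      intro i hi
      rw [Finset.mem_Ico] at hi
      apply gf_one
      have h1 : (4 : ℝ) ^ m ≤ 4 ^ i := pow_le_pow_right₀ (by norm_num) (by omega)
      have h2 : (0 : ℝ) < 4 ^ m := by positivity
      nlinarith [hm.2]
    rw [h1, inv_mul_cancel₀ hn0'.ne']
  · have h1 : ∫ x, ‖gr (kap Z m n) x‖ ^ 2 ≤ ∫ x, ∑ i ∈ Finset.Ico m (m + n),
        (Ban Z i).indicator (fun _ => ((n : ℝ)⁻¹ * 4 ^ i) ^ 2) x :=
      integral_mono hIntG hIntS fun x => kap_grad Z m n x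
    refine h1.trans ?_
    rw [integral_finsetSum _ hInt]
    have h2 : ∀ i ∈ Finset.Ico m (m + n), ∫ x, (Ban Z i).indicator (fun _ => ((n : ℝ)⁻¹ * 4 ^ i) ^ 2) x
        ≤ 9 * max C 0 * ((n : ℝ)⁻¹) ^ 2 := by
      intro i hi
      rw [integral_indicator (Ban_closed Z i).measurableSet, setIntegral_const, smul_eq_mul]
      have h3 : (volume : Measure E).real (Ban Z i) ≤ max C 0 * (3 * ((4 : ℝ) ^ i)⁻¹) ^ 2 := by
        rw [Measure.real]
        apply ENNReal.toReal_le_of_le_ofReal (by positivity)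
        refine (hB i hi).trans (ENNReal.ofReal_le_ofReal ?_)
        exact mul_le_mul_of_nonneg_right (le_max_left _ _) (by positivity)
      calc (volume : Measure E).real (Ban Z i) * ((n : ℝ)⁻¹ * 4 ^ i) ^ 2
          ≤ (max C 0 * (3 * ((4 : ℝ) ^ i)⁻¹) ^ 2) * ((n : ℝ)⁻¹ * 4 ^ i) ^ 2 :=
            mul_le_mul_of_nonneg_right h3 (by positivity)
        _ = 9 * max C 0 * ((n : ℝ)⁻¹) ^ 2 := by
            have : (4 : ℝ) ^ i ≠ 0 := by positivity
            field_simp
            ring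
    refine (Finset.sum_le_sum h2).trans ?_
    rw [Finset.sum_const, Nat.card_Ico, Nat.add_sub_cancel_left, nsmul_eq_mul]
    have h3 : 9 * max C 0 ≤ n * ε := by
      rcases hC with h | h
      · rw [max_eq_left h]; exact hn
      · rw [max_eq_right h.le, mul_zero]; positivity
    calc (n : ℝ) * (9 * max C 0 * ((n : ℝ)⁻¹) ^ 2) = (9 * max C 0) / n := by
          field_simp
      _ ≤ ε := by rw [div_le_iff₀ hn0']; linarith

end Pool.Agent.H86.IC
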