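import Mathlib
import Pool.Agent.H94.IC.Targets3

/-!
# Insulating cracks: module EQL, the potentials agree off the two cracks
-/

open MeasureTheory Set Filter Topology Metric
open scoped ENNReal NNReal ContDiff RealInnerProductSpace

namespace Pool.Agent.H86.IC

open Pool.Agent.H94.IC

theorem eql (hUCX : T_UCX) (hENC : T_ENC) (hFFE : T_FFE) (hFM2 : T_FM2) (hNVC : T_NVC)
    (hWNS : T_WNS) (hNLS : T_NLS) (hCNO : T_CNO) : T_EQL := by
  intro N Ω S S' σ ν ψ h h' τ τ' Φ δ hD hσ hF hS hT hh hsol hh' hsol' hττ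
  obtain ⟨hS'0, hS'c, hS'Ω⟩ := (hNLS Ω S').2 Φ δ hT
  have hS0 : volume S = 0 := (hNLS Ω S).1 hS
  obtain ⟨hEo, hEc, hEu⟩ := hENC Ω S S' hD hS.cpt hS.sub hS'c hS'Ω
  -- off the enclosed part
  have hoff : ∀ i, ∀ x ∈ Ω, x ∉ S → x ∉ S' → x ∉ Enc Ω S S' → h i x = h' i x := by
    intro i x hx hxS hxS' hxE
    apply hUCX Ω S S' σ ν (ψ i) (h i) (h' i) (τ i) (τ' i) hD.op hD.bdd hσ hS.cpt hS.sub hS0
      hS'c hS'Ω hS'0 (hh i) (hh' i) (hsol i) (hsol' i) (hττ i) x hx hxS hxS'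
    by_contra hcon
    exact hxE ⟨hxS, hxS', hcon⟩
  -- the enclosed part is empty
  have hWN : ∀ i, WN Ω S (h i) := fun i =>
    hWNS Ω S σ ν (ψ i) (h i) (τ i) hD.op hD.bdd hσ hS.cpt hS.sub (hh i) (hsol i)
  have hWN' : ∀ i, WN Ω S' (h' i) := fun i =>
    hWNS Ω S' σ ν (ψ i) (h' i) (τ' i) hD.op hD.bdd hσ hS'c hS'Ω (hh' i) (hsol' i)
  have hgr : ∀ i, ∀ x ∈ Enc Ω S S', gr (h' i) x = 0 := by
    intro i x hx
    exact hFM2 Ω S' Φ δ (h' i) (Enc Ω S S') hD.op hD.bdd hT (hWN' i) hEo hEc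
      (hFFE Ω S S' (h i) (h' i) hD hS hS'c hS'Ω (hWN i) (hh' i) (hoff i)) x hx hx.2.1
  have hemp : Enc Ω S S' = ∅ := by
    by_contra hne
    rw [← Ne, ← nonempty_iff_ne_empty] at hne
    choose idx hidx using hF.nor
    refine hNVC Ω S' σ ν (fun k => h' (idx k)) (fun k => τ' (idx k)) hD hσ hS'c hS'Ω hS'0
      ((hCNO Ω S' Φ δ hD.op hD.conn hT).1.isPreconnected) (fun k => hh' (idx k)) ?_
      (Enc Ω S S') hEo hne ?_ (fun k x hx => hgr (idx k) x hx)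
    · intro k
      have h1 := hsol' (idx k)
      rw [hidx k] at h1
      exact h1
    · intro x hx
      exact ⟨hEc (subset_closure hx), hx.2.1⟩
  intro i x hx hxS hxS'
  apply hoff i x hx hxS hxS'
  rw [hemp]
  exact fun h => h

end Pool.Agent.H86.IC
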