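import Mathlib
import Pool.Agent.H94.IC.Targets2

/-!
# Insulating cracks: module FCH, charts at the interior points of the disc
-/

open MeasureTheory Set Filter Topology Metric
open scoped ENNReal NNReal ContDiff RealInnerProductSpace

namespace Pool.Agent.H86.IC

open Pool.Agent.H94.IC

theorem fch : T_FCH := by
  intro Ω S Φ δ y0 hT hy0 hlt N hN
  -- y0 is in the source
  have hy0s : y0 ∈ Φ.source := hT.src (Metric.self_subset_cthickening _ hy0)
  have hfds : flatDisc ⊆ Φ.source := (Metric.self_subset_cthickening _).trans hT.src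
  set V : Set E := {y | y 0 ^ 2 + y 1 ^ 2 < 1} with hV
  have hVo : IsOpen V := by
    apply isOpen_lt <;> fun_prop
  set W : Set E := (Φ.source ∩ Φ ⁻¹' (interior N)) ∩ V with hW
  have hWo : IsOpen W :=
    (Φ.continuousOn.isOpen_inter_preimage Φ.open_source isOpen_interior).inter hVo
  set Φ' := Φ.restrOpen W hWo with hΦ'
  set Ψ := Φ'.symm.transHomeomorph (Homeomorph.addRight (-y0)) with hΨ
  have hWsub : W ⊆ Φ.source := fun y hy => hy.1.1
  have hsrc : Ψ.source = Φ '' W := by
    have h1 : Ψ.source = Φ'.target := rfl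
    have h2 : Φ'.source = W := by
      simp only [hΦ', OpenPartialHomeomorph.restrOpen_source]
      exact inter_eq_self_of_subset_right hWsub
    rw [h1, ← Φ'.image_source_eq_target, h2]
    rfl
  have happ : ∀ x, Ψ x = Φ.symm x - y0 := fun x => by
    simp [hΨ, hΦ', sub_eq_add_neg]
  have hsymmapp : ∀ y, Ψ.symm y = Φ (y + y0) := fun y => by
    have h3 : (Homeomorph.addRight (-y0)).symm y = y + y0 := by
      rw [Homeomorph.symm_apply_eq]; simp
    have h4 : Ψ.symm y = Φ ((Homeomorph.addRight (-y0)).symm y) := rfl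
    rw [h4, h3]
  have hy0W : y0 ∈ W := ⟨⟨hy0s, mem_interior_iff_mem_nhds.2 hN⟩, hlt⟩
  have hsub : Ψ.source ⊆ Φ.target := by
    rw [hsrc]
    rintro x ⟨y, hy, rfl⟩
    exact Φ.map_source (hWsub hy)
  have htgt : ∀ y ∈ Ψ.target, y + y0 ∈ Φ.source := by
    intro y hy
    have h1 : Ψ.symm y ∈ Ψ.source := Ψ.map_target hy
    have h2 : Ψ (Ψ.symm y) = y := Ψ.right_inv hy
    rw [happ] at h2
    have h3 : y + y0 = Φ.symm (Ψ.symm y) := by
      have := congrArg (· + y0) h2
      simpa using this.symm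
    rw [h3]
    exact Φ.map_target (hsub h1)
  refine ⟨Ψ, ?_, ?_, ?_, ?_, ?_, ?_, ?_⟩
  · rw [hsrc]; exact ⟨y0, hy0W, rfl⟩
  · rw [happ, Φ.left_inv hy0s, sub_self]
  · rw [hsrc]
    rintro x ⟨y, hy, rfl⟩
    exact interior_subset hy.1.2
  · exact hsub.trans hT.tgt
  · have h1 : ContDiffOn ℝ ∞ (fun x => Φ.symm x - y0) Ψ.source :=
      (hT.sms.mono hsub).sub contDiffOn_const
    exact h1.congr fun x _ => happ x
  · have h1 : ContDiffOn ℝ ∞ (fun y => Φ (y + y0)) Ψ.target := by
      apply hT.sm.comp (contDiffOn_id.add contDiffOn_const)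
      intro y hy
      exact htgt y hy
    exact h1.congr fun y _ => hsymmapp y
  · intro x hx
    rw [happ]
    rw [hsrc] at hx
    obtain ⟨y, hy, rfl⟩ := hx
    rw [Φ.left_inv (hWsub hy)]
    have h02 : y0 2 = 0 := hy0.1
    have h1 : (y - y0) 2 = y 2 := by
      simp [h02]
    rw [h1, ← hT.img]
    constructor
    · rintro ⟨z, hz, hzy⟩
      have : z = y := Φ.injOn (hfds hz) (hWsub hy) hzy
      rw [← this]; exact hz.1
    · intro h2
      exact ⟨y, ⟨h2, le_of_lt hy.2⟩, rfl⟩

end Pool.Agent.H86.IC
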