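import Mathlib
import Pool.Agent.H94.IC.Targets3

/-!
# Insulating cracks: module MAIN, the assembly
-/

open MeasureTheory Set Filter Topology Metric
open scoped ENNReal NNReal ContDiff RealInnerProductSpace

namespace Pool.Agent.H86.IC

open Pool.Agent.H94.IC

theorem main (hFAM : T_FAM) (hTUB : T_TUB) (hNLS : T_NLS) (hHRP : T_HRP) (hEQL : T_EQL)
    (hCSA : T_CSA) (hCSB : T_CSB) (hCSC : T_CSC) : T_MAIN := by
  intro Ω σ ν hD hσ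
  obtain ⟨N, ψ, hF⟩ := hFAM Ω σ ν hD hσ
  refine ⟨N, ψ, hF.prof, ?_⟩
  intro S S' hS hS' u u' F F' τ τ' hu _ hu' _ hττ
  obtain ⟨Φ, δ, hT⟩ := hTUB Ω S' hD.op hS'
  obtain ⟨hS'0, hS'c, hS'Ω⟩ := (hNLS Ω S').2 Φ δ hT
  have hS0 : volume S = 0 := (hNLS Ω S).1 hS
  choose h hh _ _ hsol using fun i =>
    hHRP Ω S σ ν (ψ i) (u i) (F i) (τ i) hD.op hD.bdd hσ hS.cpt hS.sub hS0 (hu i)
  choose h' hh' _ _ hsol' using fun i =>
    hHRP Ω S' σ ν (ψ i) (u' i) (F' i) (τ' i) hD.op hD.bdd hσ hS'c hS'Ω hS'0 (hu' i)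
  have heq := hEQL N Ω S S' σ ν ψ h h' τ τ' Φ δ hD hσ hF hS hT hh hsol hh' hsol' hττ
  have hsub := hCSA N Ω S S' σ ν ψ h h' τ τ' Φ δ hD hσ hF hS hT hh hsol hh' hsol' heq
  have hedge := hCSB N Ω S S' σ ν ψ h h' τ τ' Φ δ hD hσ hF hS hT hh hsol hh' hsol' heq hsub
  exact hCSC Ω S S' Φ δ hT hS hsub hedge

end Pool.Agent.H86.IC
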