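import Mathlib
import Pool.Agent.H94.IC.Targets3

/-!
# Insulating cracks: module NTV, nontriviality
-/

open MeasureTheory Set Filter Topology Metric
open scoped ENNReal NNReal ContDiff RealInnerProductSpace

namespace Pool.Agent.H86.IC

open Pool.Agent.H94.IC

theorem words_zero {N : ℕ} {O : Set E} {u : Fin N → E → ℝ} (hO : IsOpen O)
    (h : ∀ b, ∀ x ∈ O, wd u b [] x = 0) (b : Fin N × Fin N × Fin N) (l : List (Fin N)) :
    ∀ x ∈ O, wd u b l x = 0 := by
  induction l with
  | nil => exact h b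
  | cons i l ih =>
    intro x hx
    have h1 : wd u b l =ᶠ[𝓝 x] fun _ => 0 := by
      filter_upwards [hO.mem_nhds hx] with y hy using ih y hy
    show Lu (u i) (wd u b l) x = 0
    unfold Lu pd
    apply Finset.sum_eq_zero
    intro k _
    rw [h1.fderiv_eq, fderiv_fun_const]
    simp

theorem ball_sub {Ω : Set E} {x : E} (hx : x ∈ Ω) (hΩ : IsOpen Ω) :
    ball x (infDist x (frontier Ω)) ⊆ Ω := by
  by_cases h0 : 0 < infDist x (frontier Ω)
  · apply IsPreconnected.subset_of_closure_inter_subset (convex_ball _ _).isPreconnected hΩ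
    · exact ⟨x, mem_ball_self h0, hx⟩
    · rintro y ⟨hy1, hy2⟩
      by_contra hy3
      have h1 : y ∈ frontier Ω := ⟨hy1, fun h => hy3 (interior_subset h)⟩
      exact (disjoint_left.1 disjoint_ball_infDist) hy2 h1
  · rw [ball_eq_empty.2 (not_lt.1 h0)]
    exact empty_subset _

/-- compact subsets have positive distance from the boundary -/
theorem layer {Ω S : Set E} (hΩ : IsOpen Ω) (hS : IsCompact S) (hSΩ : S ⊆ Ω)
    (hfr : (frontier Ω).Nonempty) : ∃ ε > 0, ∀ x ∈ S, ε < infDist x (frontier Ω) := by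
  rcases S.eq_empty_or_nonempty with h0 | h0
  · exact ⟨1, one_pos, fun x hx => absurd hx (by rw [h0]; exact notMem_empty x)⟩
  · obtain ⟨x0, hx0, hmin⟩ := hS.exists_isMinOn h0 (continuous_infDist_pt (frontier Ω)).continuousOn
    have hpos : 0 < infDist x0 (frontier Ω) := by
      rw [← isClosed_frontier.notMem_iff_infDist_pos hfr]
      intro h
      exact h.2 (by rw [hΩ.interior_eq]; exact hSΩ hx0)
    refine ⟨infDist x0 (frontier Ω) / 2, by positivity, fun x hx => ?_⟩
    have := hmin hx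
    simp only [mem_ofPred_eq] at this
    linarith

theorem ntv (hRK2 : T_RK2) (hXCK : T_XCK) : T_NTV := by
  intro N Ω S σ ν ψ h τ hD hσ hB hSc hSΩ hh hsol
  by_contra hcon
  have hO : IsOpen (Ω \ S) := hD.op.sdiff hSc.isClosed
  have h0 : ∀ b, ∀ x ∈ Ω \ S, wd h b [] x = 0 := by
    intro b x hx
    by_contra hne
    exact hcon ⟨b, x, hx, hne⟩
  have hInv : ∀ x ∈ Ω \ S, x ∈ Inv (Ω \ S) h := fun x hx =>
    ⟨hx, fun b l => words_zero hO h0 b l x hx⟩
  obtain ⟨c, s1, -, -, hs1, -, hX⟩ := hXCK Ω hD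
  obtain ⟨n, hn1, hBar⟩ := hB
  have hfr : (frontier Ω).Nonempty := by
    obtain ⟨x, -, hx⟩ := hX s1 ⟨hs1, le_rfl⟩
    by_contra hne
    rw [not_nonempty_iff_eq_empty.1 hne, infDist_empty] at hx
    linarith
  obtain ⟨ε0, hε0, hε⟩ := layer hD.op hSc hSΩ hfr
  obtain ⟨s, ⟨hs0, hsε⟩, hconf⟩ := hBar S h τ hSc hSΩ hh hsol (min s1 (ε0 / 2)) (by positivity)
  have hss1 : s ≤ s1 := (hsε.trans_le (min_le_left _ _)).le
  have hsε0 : 2 * s < ε0 := by
    have := hsε.trans_le (min_le_right _ _); linarith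
  obtain ⟨xs, hxs, hxsd⟩ := hX s ⟨hs0, hss1⟩
  obtain ⟨q, hq, hqd⟩ := isClosed_frontier.exists_infDist_eq_dist hfr xs
  have hn0 : (0 : ℝ) < n := by exact_mod_cast hn1
  set z : ℝ → E := fun t => q + (t / (2 * s)) • (xs - q) with hz
  have hnorm : ‖xs - q‖ = 2 * s := by rw [← dist_eq_norm, ← hqd, hxsd]
  have hz1 : ∀ t, 0 < t → t ≤ 2 * s → dist (z t) xs = 2 * s - t := by
    intro t ht0 ht
    have h1 : z t - xs = (t / (2 * s) - 1) • (xs - q) := by
      simp only [hz, sub_smul, one_smul]; abel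
    rw [dist_eq_norm, h1, norm_smul, hnorm, Real.norm_eq_abs, abs_of_nonpos]
    · field_simp; ring
    · rw [sub_nonpos, div_le_one (by positivity)]; exact ht
  have hz2 : ∀ t, 0 < t → t ≤ 2 * s → dist (z t) q = t := by
    intro t ht0 ht
    have h1 : z t - q = (t / (2 * s)) • (xs - q) := by
      simp only [hz]; abel
    rw [dist_eq_norm, h1, norm_smul, hnorm, Real.norm_eq_abs, abs_of_nonneg (by positivity)]
    field_simp
  have hz3 : ∀ t, 0 < t → t ≤ 2 * s → z t ∈ Ω := by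
    intro t ht0 ht
    apply ball_sub hxs hD.op
    rw [mem_ball, hz1 t ht0 ht, hxsd]; linarith
  have hz4 : ∀ t, 0 < t → t ≤ 2 * s → infDist (z t) (frontier Ω) = t := by
    intro t ht0 ht
    apply le_antisymm
    · exact (infDist_le_dist_of_mem hq).trans (hz2 t ht0 ht).le
    · have h1 := infDist_le_infDist_add_dist (s := frontier Ω) (x := xs) (y := z t)
      rw [hxsd, dist_comm, hz1 t ht0 ht] at h1
      linarith
  set tt : Fin (n + 1) → ℝ := fun r => s + ((r : ℕ) : ℝ) * s / n with htt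
  have ht1 : ∀ r, s ≤ tt r := by
    intro r
    simp only [htt]
    have : 0 ≤ ((r : ℕ) : ℝ) * s / n := by positivity
    linarith
  have ht2 : ∀ r, tt r ≤ 2 * s := by
    intro r
    simp only [htt]
    have h1 : ((r : ℕ) : ℝ) ≤ n := by exact_mod_cast Nat.le_of_lt_succ r.2
    have h2 : ((r : ℕ) : ℝ) * s / n ≤ s := by
      rw [div_le_iff₀ hn0]; nlinarith
    linarith
  obtain ⟨r, hr⟩ := hconf (fun r => z (tt r)) (by
    intro r
    have hp : 0 < tt r := lt_of_lt_of_le hs0 (ht1 r)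
    exact ⟨hz3 _ hp (ht2 r), by rw [hz4 _ hp (ht2 r)]; exact ht1 r,
      by rw [hz4 _ hp (ht2 r)]; exact ht2 r⟩) (by
    intro r
    have h1 : z (tt r) - z (tt 0) = ((((r : ℕ) : ℝ) * s / n) / (2 * s)) • (xs - q) := by
      have h2 : tt r / (2 * s) - tt 0 / (2 * s) = (((r : ℕ) : ℝ) * s / n) / (2 * s) := by
        simp only [htt, Fin.val_zero, Nat.cast_zero]
        ring
      rw [← h2, sub_smul]
      simp only [hz]
      abel
    show ‖z (tt r) - z (tt 0)‖ = _
    rw [h1, norm_smul, hnorm, Real.norm_eq_abs, abs_of_nonneg (by positivity)]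
    field_simp)
  apply hr
  have hp : 0 < tt r := lt_of_lt_of_le hs0 (ht1 r)
  apply hRK2 N (Ω \ S) h
  apply hInv
  refine ⟨hz3 _ hp (ht2 r), fun hmem => ?_⟩
  have h1 := hε _ hmem
  have h2 : infDist (z (tt r)) (frontier Ω) = tt r := hz4 _ hp (ht2 r)
  have h3 := ht2 r
  linarith

end Pool.Agent.H86.IC
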