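import Mathlib
import Pool.Agent.H94.IC.Targets2

/-!
# Insulating cracks: module TAN, one-sided tests
-/

open MeasureTheory Set Filter Topology Metric
open scoped ENNReal NNReal ContDiff RealInnerProductSpace

namespace Pool.Agent.H86.IC

open Pool.Agent.H94.IC

theorem glue_deriv (s : ℝ) :
    HasDerivAt expNegInvGlue ((s⁻¹) ^ 2 * expNegInvGlue s) s := by
  have h := expNegInvGlue.hasDerivAt_polynomial_eval_inv_mul 1 s
  simpa using h

theorem glue_le_one (s : ℝ) : expNegInvGlue s ≤ 1 := by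
  unfold expNegInvGlue
  split_ifs with h
  · norm_num
  · rw [Real.exp_le_one_iff]
    push Not at h
    have : 0 < s⁻¹ := inv_pos.2 h
    linarith

theorem measurable_gr (f : E → ℝ) : Measurable (gr f) := by
  have h1 : Measurable (fderiv ℝ f) := measurable_fderiv ℝ f
  exact (InnerProductSpace.toDual ℝ E).symm.continuous.measurable.comp h1

theorem gr_zero_of_min {f : E → ℝ} (hf : ∀ x, 0 ≤ f x) {x : E} (hx : f x = 0) : gr f x = 0 := by
  have h1 : IsLocalMin f x := Eventually.of_forall fun y => by rw [hx]; exact hf y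
  have h2 := h1.fderiv_eq_zero
  show (InnerProductSpace.toDual ℝ E).symm (fderiv ℝ f x) = 0
  rw [h2, map_zero]

theorem gr_inner (f : E → ℝ) (x v : E) : ⟪v, gr f x⟫ = fderiv ℝ f x v := by
  rw [real_inner_comm]
  exact inner_gradient_left

/-- pairing of square integrable fields -/
theorem integrable_pair {μ : Measure E} {F G : E → E} (hF : MemLp F 2 μ) (hG : MemLp G 2 μ) :
    Integrable (fun x => ⟪F x, G x⟫) μ := by
  have h1 : Integrable (fun x => ‖F x‖ * ‖G x‖) μ := hF.norm.integrable_mul hG.norm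
  refine h1.mono' (hF.1.inner hG.1) (Eventually.of_forall fun x => ?_)
  exact norm_inner_le_norm _ _

theorem tan_key (Ω S U : Set E) (h h' t : E → ℝ) (q : E) (hΩ : IsOpen Ω) (hS : IsClosed S)
    (hW : WN Ω S h) (hU : IsOpen U) (hUΩ : U ⊆ Ω) (hh' : ContDiffOn ℝ ∞ h' U)
    (ht : ContDiffOn ℝ ∞ t U) (hSt : ∀ x ∈ U, x ∈ S ↔ t x = 0)
    (heq : ∀ x ∈ U, x ∉ S → h x = h' x) (hq : q ∈ U) (htq : t q = 0)
    (hpos : 0 < ⟪gr h' q, gr t q⟫) : False := by
  classical
  -- continuity
  have hfc' : ContinuousOn (fun x => fderiv ℝ h' x) U :=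
    hh'.continuousOn_fderiv_of_isOpen hU (by simp)
  have hfct : ContinuousOn (fun x => fderiv ℝ t x) U :=
    ht.continuousOn_fderiv_of_isOpen hU (by simp)
  have hg' : ContinuousOn (gr h') U := (InnerProductSpace.toDual ℝ E).symm.continuous.comp_continuousOn hfc'
  have hgt : ContinuousOn (gr t) U := (InnerProductSpace.toDual ℝ E).symm.continuous.comp_continuousOn hfct
  have hac : ContinuousOn (fun x => ⟪gr h' x, gr t x⟫) U := hg'.inner hgt
  set c : ℝ := ⟪gr h' q, gr t q⟫ / 2 with hc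
  have hc0 : 0 < c := by rw [hc]; linarith
  set G : ℝ := ‖gr h' q‖ + 1 with hG
  have hG0 : 0 < G := by positivity
  have hUq : U ∈ 𝓝 q := hU.mem_nhds hq
  have e1 : ∀ᶠ x in 𝓝 q, c < ⟪gr h' x, gr t x⟫ :=
    (hac.continuousAt hUq).eventually_const_lt (by rw [hc]; linarith)
  have e2 : ∀ᶠ x in 𝓝 q, ‖gr h' x‖ < G :=
    (hg'.continuousAt hUq).norm.eventually_lt_const (by rw [hG]; linarith)
  obtain ⟨r0, hr0, hr0s⟩ := Metric.eventually_nhds_iff_ball.1 (e1.and (e2.and (hU.mem_nhds hq)))
  obtain ⟨r, hr, hrr0, hrc⟩ : ∃ r : ℝ, 0 < r ∧ r < r0 ∧ 2 * G * r ≤ c := by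
    refine ⟨min (r0 / 2) (c / (2 * G)), by positivity, ?_, ?_⟩
    · exact (min_le_left _ _).trans_lt (by linarith)
    · have h1 : min (r0 / 2) (c / (2 * G)) ≤ c / (2 * G) := min_le_right _ _
      rw [le_div_iff₀ (by positivity)] at h1
      linarith
  have hball : ∀ x ∈ closedBall q r, c < ⟪gr h' x, gr t x⟫ ∧ ‖gr h' x‖ < G ∧ x ∈ U := fun x hx =>
    hr0s x (closedBall_subset_ball hrr0 hx)
  have hbU : ball q r ⊆ U := fun x hx => (hball x (ball_subset_closedBall hx)).2.2
  set e : ℝ := r ^ 2 / 4 with he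
  set w : E → ℝ := fun x => e - t x - ‖x - q‖ ^ 2 with hw
  have hwU : ContDiffOn ℝ ∞ w U := by
    apply ContDiffOn.sub
    · exact contDiffOn_const.sub ht
    · exact ((contDiff_id.sub contDiff_const).norm_sq ℝ).contDiffOn
  have hgw : ContDiffOn ℝ ∞ (fun x => expNegInvGlue (w x)) U :=
    expNegInvGlue.contDiff.comp_contDiffOn hwU
  have htc : ContinuousOn t U := ht.continuousOn
  have hwc : ContinuousOn w U := hwU.continuousOn
  set Q : Set E := {x | x ∈ ball q r ∧ 0 < t x} with hQ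
  have hQo : IsOpen Q := by
    have : Q = ball q r ∩ (ball q r ∩ t ⁻¹' Ioi 0) := by
      ext x; simp only [hQ, mem_ofPred_eq, mem_inter_iff, mem_preimage, mem_Ioi]; tauto
    rw [this]
    exact isOpen_ball.inter ((htc.mono hbU).isOpen_inter_preimage isOpen_ball isOpen_Ioi)
  set φ : E → ℝ := fun x => if x ∈ Q then expNegInvGlue (w x) else 0 with hφ
  have hφ0 : ∀ x, 0 ≤ φ x := by
    intro x
    simp only [hφ]
    split_ifs
    · exact expNegInvGlue.nonneg _
    · exact le_rfl
  have hφ1 : ∀ x, φ x ≤ 1 := by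
    intro x
    simp only [hφ]
    split_ifs
    · exact glue_le_one _
    · exact zero_le_one
  -- far from `q`
  have hfar : ∀ y, r / 2 < ‖y - q‖ → φ y = 0 := by
    intro y hy
    simp only [hφ]
    split_ifs with h1
    · apply expNegInvGlue.zero_of_nonpos
      have h2 := h1.2
      simp only [hw, he]
      nlinarith
    · rfl
  have hloc : ∀ x ∈ Q, φ =ᶠ[𝓝 x] fun y => expNegInvGlue (w y) := by
    intro x hx
    filter_upwards [hQo.mem_nhds hx] with y hy
    simp only [hφ, if_pos hy]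
  have hsm : ContDiffOn ℝ ∞ φ (Ω \ S) := by
    intro x hx
    apply ContDiffAt.contDiffWithinAt
    by_cases hxb : x ∈ ball q r
    · have hxU := hbU hxb
      have htx : t x ≠ 0 := fun h0 => hx.2 ((hSt x hxU).2 h0)
      rcases lt_or_gt_of_ne htx with h1 | h1
      · have h2 : φ =ᶠ[𝓝 x] fun _ => 0 := by
          filter_upwards [(htc.continuousAt (hU.mem_nhds hxU)).eventually_lt_const h1] with y hy
          simp only [hφ]
          rw [if_neg]
          intro hyQ
          exact absurd hyQ.2 (not_lt.2 hy.le)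
        exact contDiffAt_const.congr_of_eventuallyEq h2
      · exact (hgw.contDiffAt (hU.mem_nhds hxU)).congr_of_eventuallyEq (hloc x ⟨hxb, h1⟩)
    · have h2 : φ =ᶠ[𝓝 x] fun _ => 0 := by
        have h3 : r / 2 < ‖x - q‖ := by
          rw [mem_ball, dist_eq_norm, not_lt] at hxb
          linarith
        have h4 : ∀ᶠ y in 𝓝 x, r / 2 < ‖y - q‖ :=
          ((continuous_id.sub continuous_const).norm.continuousAt).eventually_const_lt h3
        filter_upwards [h4] with y hy
        exact hfar y hy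
      exact contDiffAt_const.congr_of_eventuallyEq h2
  -- the gradient
  have hgr0 : ∀ x, φ x = 0 → gr φ x = 0 := fun x hx => gr_zero_of_min hφ0 hx
  have hgrQ : ∀ x ∈ Q, gr φ x = gr (fun y => expNegInvGlue (w y)) x := fun x hx =>
    (hloc x hx).gradient_eq
  obtain ⟨M, hM⟩ : ∃ M : ℝ, ∀ x ∈ closedBall q r, ‖gr (fun y => expNegInvGlue (w y)) x‖ ≤ M := by
    have h1 : ContinuousOn (fun x => fderiv ℝ (fun y => expNegInvGlue (w y)) x) U :=
      hgw.continuousOn_fderiv_of_isOpen hU (by simp)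
    have h2 : ContinuousOn (gr fun y => expNegInvGlue (w y)) U :=
      (InnerProductSpace.toDual ℝ E).symm.continuous.comp_continuousOn h1
    exact (isCompact_closedBall q r).exists_bound_of_continuousOn
      (h2.mono fun x hx => (hball x hx).2.2)
  have hM0 : 0 ≤ M := (norm_nonneg _).trans (hM q (mem_closedBall_self hr.le))
  have hgrM : ∀ x, ‖gr φ x‖ ≤ ‖(ball q r).indicator (fun _ => M) x‖ := by
    intro x
    by_cases hx : x ∈ Q
    · rw [indicator_of_mem hx.1, hgrQ x hx, Real.norm_eq_abs, abs_of_nonneg hM0]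
      exact hM x (ball_subset_closedBall hx.1)
    · have : φ x = 0 := by simp only [hφ, if_neg hx]
      rw [hgr0 x this, norm_zero]; exact norm_nonneg _
  have hφM : ∀ x, ‖φ x‖ ≤ ‖(ball q r).indicator (fun _ => (1 : ℝ)) x‖ := by
    intro x
    by_cases hx : x ∈ Q
    · rw [indicator_of_mem hx.1, Real.norm_eq_abs, abs_of_nonneg (hφ0 x), norm_one]
      exact hφ1 x
    · have : φ x = 0 := by simp only [hφ, if_neg hx]
      rw [this, norm_zero]; exact norm_nonneg _
  have hφmeas : AEStronglyMeasurable φ (volume.restrict Ω) := by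
    have h1 : φ = Q.indicator (fun x => expNegInvGlue (w x)) := by
      funext x; simp only [hφ, indicator]
    rw [h1, aestronglyMeasurable_indicator_iff hQo.measurableSet]
    exact (hgw.continuousOn.mono fun x hx => hbU hx.1).aestronglyMeasurable hQo.measurableSet
  have hfinb : (volume.restrict Ω) (ball q r) ≠ ⊤ :=
    ((Measure.restrict_apply_le _ _).trans_lt measure_ball_lt_top).ne
  have hφ2 : MemLp φ 2 (volume.restrict Ω) :=
    (memLp_indicator_const 2 isOpen_ball.measurableSet (1 : ℝ) (Or.inr hfinb)).mono hφmeas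
      (Eventually.of_forall hφM)
  have hg2 : MemLp (gr φ) 2 (volume.restrict Ω) :=
    (memLp_indicator_const 2 isOpen_ball.measurableSet M (Or.inr hfinb)).mono
      (measurable_gr φ).aestronglyMeasurable (Eventually.of_forall hgrM)
  have hweak := hW.weak φ (closedBall q r) hsm hφ2 hg2 (isCompact_closedBall q r)
    (fun x hx => hUΩ (hball x hx).2.2) (by
      intro x hx
      apply hfar
      have h1 := hx.2
      rw [mem_closedBall, dist_eq_norm, not_le] at h1
      linarith)
  -- the sign of the integrand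
  have hsign : ∀ x ∈ Q, 0 < w x → ⟪gr h x, gr φ x⟫ < 0 := by
    intro x hx hwx
    have hxU := hbU hx.1
    have hxS : x ∉ S := fun h0 => hx.2.ne' ((hSt x hxU).1 h0)
    have h1 : h =ᶠ[𝓝 x] h' := by
      filter_upwards [hU.mem_nhds hxU, hS.isOpen_compl.mem_nhds hxS] with y hy1 hy2
      exact heq y hy1 hy2
    have h1g : gr h x = gr h' x := h1.gradient_eq
    rw [h1g, hgrQ x hx, gr_inner]
    have hd1 : HasFDerivAt w (-(fderiv ℝ t x) - (2 • (innerSL ℝ (x - q)))) x := by
      have ha : HasFDerivAt t (fderiv ℝ t x) x :=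
        ((ht.contDiffAt (hU.mem_nhds hxU)).differentiableAt (by simp)).hasFDerivAt
      have hb : HasFDerivAt (fun y : E => ‖y - q‖ ^ 2) (2 • (innerSL ℝ (x - q))) x := by
        have := (hasFDerivAt_id (𝕜 := ℝ) x).sub_const q |>.norm_sq
        simpa using this
      have := (ha.const_sub e).sub hb
      exact this
    have hd2 := (glue_deriv (w x)).comp_hasFDerivAt x hd1
    have hd3 : fderiv ℝ (fun y => expNegInvGlue (w y)) x =
        ((w x)⁻¹ ^ 2 * expNegInvGlue (w x)) • (-(fderiv ℝ t x) - (2 • (innerSL ℝ (x - q)))) :=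
      hd2.fderiv
    rw [hd3]
    have hgp : 0 < (w x)⁻¹ ^ 2 * expNegInvGlue (w x) :=
      mul_pos (by positivity) (expNegInvGlue.pos_of_pos hwx)
    obtain ⟨hb1, hb2, -⟩ := hball x (ball_subset_closedBall hx.1)
    have h5 : |⟪x - q, gr h' x⟫| ≤ ‖x - q‖ * ‖gr h' x‖ := abs_real_inner_le_norm _ _
    have h6 : ‖x - q‖ < r := by rw [← dist_eq_norm]; exact hx.1
    have h7 : ‖x - q‖ * ‖gr h' x‖ ≤ r * G :=
      mul_le_mul h6.le hb2.le (norm_nonneg _) hr.le
    have h8 : fderiv ℝ t x (gr h' x) = ⟪gr h' x, gr t x⟫ := (gr_inner t x _).symm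
    simp only [ContinuousLinearMap.smul_apply, ContinuousLinearMap.sub_apply,
      ContinuousLinearMap.neg_apply, innerSL_apply_apply, smul_eq_mul, nsmul_eq_mul,
      Nat.cast_ofNat]
    rw [h8]
    apply mul_neg_of_pos_of_neg hgp
    have h9 := neg_abs_le ⟪x - q, gr h' x⟫
    nlinarith
  have hnonpos : ∀ x, ⟪gr h x, gr φ x⟫ ≤ 0 := by
    intro x
    by_cases hx : x ∈ Q ∧ 0 < w x
    · exact (hsign x hx.1 hx.2).le
    · have h0 : φ x = 0 := by
        simp only [hφ]
        split_ifs with h1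
        · apply expNegInvGlue.zero_of_nonpos
          by_contra h2
          exact hx ⟨h1, not_le.1 h2⟩
        · rfl
      rw [hgr0 x h0, inner_zero_right]
  have hint : Integrable (fun x => ⟪gr h x, gr φ x⟫) (volume.restrict Ω) := integrable_pair hW.g2 hg2
  have hz : (fun x => -⟪gr h x, gr φ x⟫) =ᵐ[volume.restrict Ω] 0 := by
    rw [← integral_eq_zero_iff_of_nonneg (fun x => neg_nonneg.2 (hnonpos x)) hint.neg,
      integral_neg, hweak, neg_zero]
  -- the open set
  set P : Set E := Q ∩ {x | 0 < w x} with hP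
  have hPo : IsOpen P := by
    have : P = Q ∩ (Q ∩ w ⁻¹' Ioi 0) := by
      ext x; simp only [hP, mem_ofPred_eq, mem_inter_iff, mem_preimage, mem_Ioi]; tauto
    rw [this]
    exact hQo.inter ((hwc.mono fun x hx => hbU hx.1).isOpen_inter_preimage hQo isOpen_Ioi)
  have hPn : P.Nonempty := by
    have hd : HasDerivAt (fun s : ℝ => t (q + s • gr h' q)) (⟪gr h' q, gr t q⟫) 0 := by
      have ha : HasFDerivAt t (fderiv ℝ t q) (q + (0 : ℝ) • gr h' q) := by
        rw [zero_smul, add_zero]
        exact ((ht.contDiffAt hUq).differentiableAt (by simp)).hasFDerivAt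
      have hb : HasDerivAt (fun s : ℝ => q + s • gr h' q) (gr h' q) 0 := by
        have := ((hasDerivAt_id (0 : ℝ)).smul_const (gr h' q)).const_add q
        simpa using this
      have := ha.comp_hasDerivAt (0 : ℝ) hb
      rw [gr_inner]
      exact this
    have h1 : ∀ᶠ s in 𝓝[>] (0 : ℝ), 0 < t (q + s • gr h' q) := by
      have h2 := hd.tendsto_slope_zero_right
      have h3 : ∀ᶠ s in 𝓝[>] (0 : ℝ), 0 < s⁻¹ • (t (q + (0 + s) • gr h' q) - t (q + (0 : ℝ) • gr h' q)) :=
        h2.eventually_const_lt hpos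
      filter_upwards [h3, self_mem_nhdsWithin] with s hs hs0
      rw [mem_Ioi] at hs0
      rw [zero_add, zero_smul, add_zero, htq, sub_zero, smul_eq_mul] at hs
      exact pos_of_mul_pos_right hs (inv_pos.2 hs0).le
    have hcont : ContinuousAt (fun s : ℝ => q + s • gr h' q) 0 := by fun_prop
    have h4 : ∀ᶠ s in 𝓝[>] (0 : ℝ), q + s • gr h' q ∈ ball q r := by
      apply nhdsWithin_le_nhds
      apply hcont.eventually_mem
      rw [zero_smul, add_zero]
      exact ball_mem_nhds q hr
    have h5 : ∀ᶠ s in 𝓝[>] (0 : ℝ), 0 < w (q + s • gr h' q) := by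
      apply nhdsWithin_le_nhds
      have h6 : ContinuousAt w (q + (0 : ℝ) • gr h' q) := by
        rw [zero_smul, add_zero]; exact hwc.continuousAt hUq
      have h7 : ContinuousAt (fun s : ℝ => w (q + s • gr h' q)) 0 :=
        ContinuousAt.comp (g := w) (f := fun s : ℝ => q + s • gr h' q) h6 hcont
      apply h7.eventually_const_lt
      simp only [hw, zero_smul, add_zero, htq, sub_self, norm_zero, he]
      norm_num
      positivity
    obtain ⟨s, hs⟩ := (h1.and (h4.and h5)).exists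
    exact ⟨_, ⟨hs.2.1, hs.1⟩, hs.2.2⟩
  have hPpos : 0 < volume P := hPo.measure_pos volume hPn
  have hPΩ : P ⊆ Ω := fun x hx => hUΩ (hbU hx.1.1)
  have hPz : volume P = 0 := by
    rw [Filter.EventuallyEq, ae_restrict_iff' hΩ.measurableSet] at hz
    refine measure_mono_null ?_ (ae_iff.1 hz)
    intro x hx hcon
    have h1 := hcon (hPΩ hx)
    simp only [Pi.zero_apply, neg_eq_zero] at h1
    exact (hsign x hx.1 hx.2).ne h1
  exact hPpos.ne' hPz

theorem tan : T_TAN := by
  intro Ω S O' h h' Ψ hΩ hS hO' hW hH hsO hsΩ hΨ hΨs hSt heq q hq hqS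
  have ht : ContDiffOn ℝ ∞ (fun x => (Ψ x) 2) Ψ.source := by
    have h1 : ContDiff ℝ ∞ (fun y : E => y 2) := (EuclideanSpace.proj (2 : Fin 3) : E →L[ℝ] ℝ).contDiff
    exact h1.comp_contDiffOn hΨ
  have hh' : ContDiffOn ℝ ∞ h' Ψ.source := hH.1.mono hsO
  have htq : (Ψ q) 2 = 0 := (hSt q hq).1 hqS
  by_contra hne
  rcases lt_or_gt_of_ne hne with hlt | hgt
  · refine tan_key Ω S Ψ.source h h' (fun x => -((Ψ x) 2)) q hΩ hS hW Ψ.open_source hsΩ hh'
      ht.neg (fun x hx => ?_) heq hq (by simp [htq]) ?_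
    · rw [hSt x hx, neg_eq_zero]
    · have h1 : ⟪gr h' q, gr (fun x => -((Ψ x) 2)) q⟫ = -⟪gr h' q, gr (fun x => (Ψ x) 2) q⟫ := by
        rw [gr_inner, gr_inner, fderiv_fun_neg, ContinuousLinearMap.neg_apply]
      rw [h1]; linarith
  · exact tan_key Ω S Ψ.source h h' (fun x => (Ψ x) 2) q hΩ hS hW Ψ.open_source hsΩ hh'
      ht hSt heq hq htq hgt

end Pool.Agent.H86.IC
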